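import Pool.Agent.H75.L.W662.CB.Stmts
import Pool.Agent.H75.L.W662.CB.Stmts2
import Pool.Agent.H75.L.W662.CB.Fdefs

/-!
Relative bicentralizer flow versus relative flow of weights (MP_357da3_an): definitions.
-/

set_option autoImplicit false

open MeasureTheory Filter Topology Complex
open scoped InnerProductSpace ENNReal

namespace Pool.Agent.H75.BC

open Pool.Agent.W662.CB

noncomputable section

variable {H : Type} [NormedAddCommGroup H] [InnerProductSpace ℂ H] [CompleteSpace H]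
variable {K : Type} [NormedAddCommGroup K] [InnerProductSpace ℂ K] [CompleteSpace K]

/-- `‖a φ - c φ a‖`, the norm of a functional on `N`. -/
def fnorm (N : VonNeumannAlgebra H) (ξ : H) (c : ℝ) (a : H →L[ℂ] H) : ℝ :=
  sSup {r : ℝ | ∃ x : H →L[ℂ] H, x ∈ N ∧ ‖x‖ ≤ 1 ∧ r = ‖vst ξ (x * a) - (c : ℂ) * vst ξ (a * x)‖}

/-- bounded sequences in `N` with `‖a_n φ - c φ a_n‖ → 0` -/
def IsAC (N : VonNeumannAlgebra H) (ξ : H) (c : ℝ) (a : ℕ → H →L[ℂ] H) : Prop :=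
  (∀ n, a n ∈ N) ∧ (∃ C : ℝ, ∀ n, ‖a n‖ ≤ C) ∧ Tendsto (fun n => fnorm N ξ c (a n)) atTop (𝓝 0)

/-- the relative bicentralizer -/
def Bic (N M : VonNeumannAlgebra H) (ξ : H) : Set (H →L[ℂ] H) :=
  {x | x ∈ M ∧ ∀ a : ℕ → H →L[ℂ] H, IsAC N ξ 1 a →
    ∀ v : H, Tendsto (fun n => (x * a n - a n * x) v) atTop (𝓝 0)}

/-- The modular conjugation `J` and the right action `ρ a = J a* J` of `M`. -/
structure RAct (M : VonNeumannAlgebra H) (ξ : H) (U : ℝ → H →L[ℂ] H) (J : H → H)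
    (ρ : (H →L[ℂ] H) → (H →L[ℂ] H)) : Prop where
  J_add : ∀ x y : H, J (x + y) = J x + J y
  J_smul : ∀ (c : ℂ) (x : H), J (c • x) = (starRingEnd ℂ c) • J x
  J_inv : ∀ x : H, J (J x) = x
  J_inner : ∀ x y : H, ⟪J x, J y⟫_ℂ = ⟪y, x⟫_ℂ
  J_fix : J ξ = ξ
  J_U : ∀ (t : ℝ) (x : H), J (U t x) = U t (J x)
  act : ∀ (a : H →L[ℂ] H) (x : H), ρ a x = J (star a (J x))
  comm : ∀ a b : H →L[ℂ] H, a ∈ M → b ∈ M → ρ a * b = b * ρ a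
  an : ∀ F : ℂ → H →L[ℂ] H, IsAn M U F → ρ (F 0) ξ = F (-(I / 2)) ξ

/-- `ζ` satisfies the Lipschitz estimate with constant `C` over `N`. -/
def Lip (N : VonNeumannAlgebra H) (ξ : H) (ρ : (H →L[ℂ] H) → (H →L[ℂ] H)) (C : ℝ) (ζ : H) : Prop :=
  ∀ a : H →L[ℂ] H, a ∈ N → ‖a ζ - ρ a ζ‖ ≤ C * ‖a ξ - ρ a ξ‖

/-- the projection onto the box `[p, p + r]` -/
def bx (S : ℝ → K →L[ℂ] K) (E : ℝ → ℂ → K →L[ℂ] K) (p r : ℝ) : K →L[ℂ] K :=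
  S p * E r 0 * S (-p)

/-- The abstract properties of `K = L²(ℝ; H)`. Frequency picture: `κ y = 1 ⊗ y`, `e t` is the multiplication
by `e^{2πitw}`, `(S p f)(w) = f (w - p)`, `J r v = r^{-1/2} 1_{[0,r]} ⊗ v`, `E r z` is the multiplication by
`e^{2πizw} 1_{[0,r]}(w)`.  Time picture: `(e t f)(s) = f (s + t)`, `(S p f)(s) = e^{2πips} f(s)`,
`(W f)(s) = U(-s) f(s)`, so `W κ(a) W* = π_σ(a)`. -/
structure Frame (U : ℝ → H →L[ℂ] H) (κ : (H →L[ℂ] H) →⋆ₐ[ℂ] (K →L[ℂ] K)) (e S : ℝ → K →L[ℂ] K)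
    (W : K →L[ℂ] K) (J : ℝ → H →L[ℂ] K) (E : ℝ → ℂ → K →L[ℂ] K) : Prop where
  e_zero : e 0 = 1
  e_add : ∀ s t : ℝ, e (s + t) = e s * e t
  e_star : ∀ t : ℝ, star (e t) = e (-t)
  e_cont : ∀ f : K, Continuous fun t : ℝ => e t f
  S_zero : S 0 = 1
  S_add : ∀ s t : ℝ, S (s + t) = S s * S t
  S_star : ∀ t : ℝ, star (S t) = S (-t)
  S_cont : ∀ f : K, Continuous fun t : ℝ => S t f
  e_S : ∀ t p : ℝ, e t * S p = Complex.exp (2 * Real.pi * I * t * p) • (S p * e t)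
  κ_e : ∀ (y : H →L[ℂ] H) (t : ℝ), κ y * e t = e t * κ y
  κ_S : ∀ (y : H →L[ℂ] H) (p : ℝ), κ y * S p = S p * κ y
  κ_E : ∀ (y : H →L[ℂ] H) (r : ℝ) (z : ℂ), 0 < r → κ y * E r z = E r z * κ y
  J_iso : ∀ (r : ℝ) (v : H), 0 < r → ContinuousLinearMap.adjoint (J r) (J r v) = v
  κ_J : ∀ (y : H →L[ℂ] H) (r : ℝ) (v : H), 0 < r → κ y (J r v) = J r (y v)
  E_add : ∀ (r : ℝ) (z w : ℂ), 0 < r → E r (z + w) = E r z * E r w
  E_star : ∀ (r : ℝ) (z : ℂ), 0 < r → star (E r z) = E r (-(starRingEnd ℂ z))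
  E_diff : ∀ r : ℝ, 0 < r → Differentiable ℂ (E r)
  E_norm : ∀ (r : ℝ) (z : ℂ), 0 < r → ‖E r z - E r 0‖ ≤ Real.exp (2 * Real.pi * ‖z‖ * r) - 1
  /-- everything that commutes with all characters commutes with `E r z` -/
  E_comm : ∀ T : K →L[ℂ] K, (∀ t : ℝ, T * e t = e t * T) → ∀ (r : ℝ) (z : ℂ), 0 < r →
    T * E r z = E r z * T
  e_J : ∀ (r t : ℝ) (v : H), 0 < r → e t (J r v) = E r t (J r v)
  E_J : ∀ (r : ℝ) (v : H), 0 < r → E r 0 (J r v) = J r v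
  /-- sub-boxes -/
  box_E : ∀ (p r r' : ℝ) (z : ℂ), 0 < r → 0 ≤ p → p + r ≤ r' →
    bx S E p r * E r' z = Complex.exp (2 * Real.pi * I * z * p) • (S p * E r z * S (-p))
  box_J : ∀ (p r r' : ℝ) (v : H), 0 < r → 0 ≤ p → p + r ≤ r' →
    bx S E p r (J r' v) = ((Real.sqrt (r / r') : ℝ) : ℂ) • S p (J r v)
  /-- disjoint boxes -/
  box_orth : ∀ p q r r' : ℝ, 0 < r → 0 < r' → p + r ≤ q → bx S E p r * bx S E q r' = 0
  box_sum : ∀ (r : ℝ) (n : ℕ), 0 < r → 0 < n →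
    E r 0 = ∑ k ∈ Finset.range n, bx S E (k * (r / n)) (r / n)
  /-- Fourier series on the box `[0, r]` -/
  fourier : ∀ (r : ℝ), 0 < r → ∀ u : K, HasSum (fun m : ℤ => e ((m : ℝ) / r)
    (J r (ContinuousLinearMap.adjoint (J r) (e (-((m : ℝ) / r)) u)))) (E r 0 u)
  /-- the flat projections of a fine subdivision converge strongly to the projection onto the box -/
  flat : ∀ (r : ℝ), 0 < r → ∀ u : K, Tendsto (fun n : ℕ => ∑ k ∈ Finset.range (n + 1),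
    S (k * (r / (n + 1 : ℕ))) (J (r / (n + 1 : ℕ)) (ContinuousLinearMap.adjoint (J (r / (n + 1 : ℕ)))
      (S (-(k * (r / (n + 1 : ℕ)))) u)))) atTop (𝓝 (E r 0 u))
  exhaust : ∀ u : K, Tendsto (fun R : ℝ => bx S E (-R) (2 * R) u) atTop (𝓝 u)
  tail : ∀ (u : K) (R δ : ℝ), 0 < R → (∀ t : ℝ, |t| ≤ 1 / R → ‖e t u - u‖ ≤ δ) →
    ‖u - bx S E (-R) (2 * R) u‖ ≤ 2 * δ
  W_un1 : star W * W = 1
  W_un2 : W * star W = 1
  W_S : ∀ p : ℝ, W * S p = S p * W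
  e_W : ∀ t : ℝ, star W * e t * W = κ (U (-t)) * e t
  W_U : ∀ t : ℝ, W * κ (U t) = κ (U t) * W
  W_J : ∀ (r : ℝ) (v : H), 0 < r → (∀ t : ℝ, U t v = v) → W (J r v) = J r v
  W_comm : ∀ y y' : H →L[ℂ] H,
    (∀ t : ℝ, (U (-t) * y * U t) * y' = y' * (U (-t) * y * U t)) →
    (W * κ y * star W) * κ y' = κ y' * (W * κ y * star W)
  /-- `J_r* W* 1_{[p,p+r]} W J_r = J_r* W* S_p J_r` -/
  W_box : ∀ (p r : ℝ) (v w : H), 0 < r →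
    ⟪W (J r v), bx S E p r (W (J r w))⟫_ℂ = ⟪W (J r v), S p (J r w)⟫_ℂ
  /-- the same for `W*` -/
  W_box' : ∀ (p r : ℝ) (v w : H), 0 < r →
    ⟪star W (J r v), bx S E p r (star W (J r w))⟫_ℂ = ⟪star W (J r v), S p (J r w)⟫_ℂ
  /-- positive definite functions: the form in `W_box` only depends on `t ↦ ⟪v, U_t v⟫` -/
  W_form : ∀ (p r : ℝ) (v w : H), 0 < r → (∀ t : ℝ, ⟪v, U t v⟫_ℂ = ⟪w, U t w⟫_ℂ) →
    ⟪W (J r v), S p (J r v)⟫_ℂ = ⟪W (J r w), S p (J r w)⟫_ℂ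
  conv : ∀ (a : ℕ → H →L[ℂ] H) (p C : ℝ), (∀ n, ‖a n‖ ≤ C) →
    (∀ (t : ℝ) (v : H), Tendsto (fun n => (U (-t) * a n * U t -
      Complex.exp (2 * Real.pi * I * p * t) • a n) v) atTop (𝓝 0)) →
    ∀ f : K, Tendsto (fun n => (W * κ (a n) * star W - κ (a n) * S p) f) atTop (𝓝 0)

/-- `A` is the core of `N` (generated by `π_σ(N) = W κ(N) W*` and the `e t`), and it is a factor. -/
structure CoreD (M N : VonNeumannAlgebra H) (ξ : H) (U : ℝ → H →L[ℂ] H)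
    (κ : (H →L[ℂ] H) →⋆ₐ[ℂ] (K →L[ℂ] K)) (e S : ℝ → K →L[ℂ] K)
    (W : K →L[ℂ] K) (J : ℝ → H →L[ℂ] K) (E : ℝ → ℂ → K →L[ℂ] K) (A : VonNeumannAlgebra K) : Prop where
  std : Std M N ξ U
  fr : Frame U κ e S W J E
  gen_W : ∀ y : H →L[ℂ] H, y ∈ N → W * κ y * star W ∈ A
  gen_e : ∀ t : ℝ, e t ∈ A
  gen_min : ∀ Z : K →L[ℂ] K, Z ∈ A → ∀ T : K →L[ℂ] K,
    (∀ y : H →L[ℂ] H, y ∈ N → T * (W * κ y * star W) = (W * κ y * star W) * T) →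
    (∀ t : ℝ, T * e t = e t * T) → T * Z = Z * T
  fac : IsFac A

/-- The relative commutant `A' ∩ (M ⊗ B(L²))`. -/
def RR (M : VonNeumannAlgebra H) (κ : (H →L[ℂ] H) →⋆ₐ[ℂ] (K →L[ℂ] K)) (A : VonNeumannAlgebra K) :
    Set (K →L[ℂ] K) :=
  {X | (∀ y : H →L[ℂ] H, y ∈ M.commutant → X * κ y = κ y * X) ∧
    ∀ Z : K →L[ℂ] K, Z ∈ A → X * Z = Z * X}

/-- `x` is the value of `X` at `0` -/
def Ev (M : VonNeumannAlgebra H) (J : ℝ → H →L[ℂ] K) (X : K →L[ℂ] K) (x : H →L[ℂ] H) : Prop :=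
  x ∈ M ∧ ∀ v : H, Tendsto (fun r : ℝ => X (J r v) - J r (x v)) (𝓝[>] 0) (𝓝 0)

end

end Pool.Agent.H75.BC
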