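import Pool.Agent.H75.BC.RB

/-!
Basic consequences of `Frame` and `CoreD` (helper75).
-/

set_option autoImplicit false

open MeasureTheory Filter Topology Complex
open scoped InnerProductSpace ENNReal

namespace Pool.Agent.H75.BC.FB

open Pool.Agent.W662.CB Pool.Agent.H75.BC

noncomputable section

variable {H : Type} [NormedAddCommGroup H] [InnerProductSpace ℂ H] [CompleteSpace H]
  {K : Type} [NormedAddCommGroup K] [InnerProductSpace ℂ K] [CompleteSpace K]
  {M N : VonNeumannAlgebra H} {ξ : H} {U : ℝ → H →L[ℂ] H} {J0 : H → H}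
  {ρ : (H →L[ℂ] H) → (H →L[ℂ] H)} {κ : (H →L[ℂ] H) →⋆ₐ[ℂ] (K →L[ℂ] K)} {e S : ℝ → K →L[ℂ] K}
  {W : K →L[ℂ] K} {J : ℝ → H →L[ℂ] K} {E : ℝ → ℂ → K →L[ℂ] K} {A : VonNeumannAlgebra K}

/-- application of an equality of operators -/
theorem ap {T T' : K →L[ℂ] K} (h : T = T') (x : K) : T x = T' x := by rw [h]

theorem norm_le_one_of_un {T : K →L[ℂ] K} (h : star T * T = 1) (x : K) : ‖T x‖ = ‖x‖ := by
  have h1 : ⟪T x, T x⟫_ℂ = ⟪x, x⟫_ℂ := by
    rw [← ContinuousLinearMap.adjoint_inner_right T x (T x), ← ContinuousLinearMap.star_eq_adjoint]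
    exact congrArg (fun z => ⟪x, z⟫_ℂ) (ap h x)
  rw [inner_self_eq_norm_sq_to_K, inner_self_eq_norm_sq_to_K] at h1
  have h2 : ‖T x‖ ^ 2 = ‖x‖ ^ 2 := by exact_mod_cast h1
  exact (sq_eq_sq₀ (norm_nonneg _) (norm_nonneg _)).1 h2

section fr

variable (F : Frame U κ e S W J E)
include F

theorem S_neg_mul (s : ℝ) : S (-s) * S s = 1 := by rw [← F.S_add, neg_add_cancel, F.S_zero]

theorem S_mul_neg (s : ℝ) : S s * S (-s) = 1 := by rw [← F.S_add, add_neg_cancel, F.S_zero]

theorem e_neg_mul (s : ℝ) : e (-s) * e s = 1 := by rw [← F.e_add, neg_add_cancel, F.e_zero]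

theorem e_mul_neg (s : ℝ) : e s * e (-s) = 1 := by rw [← F.e_add, add_neg_cancel, F.e_zero]

theorem S_norm (s : ℝ) (x : K) : ‖S s x‖ = ‖x‖ :=
  norm_le_one_of_un (by rw [F.S_star]; exact S_neg_mul F s) x

theorem e_norm (s : ℝ) (x : K) : ‖e s x‖ = ‖x‖ :=
  norm_le_one_of_un (by rw [F.e_star]; exact e_neg_mul F s) x

theorem W_norm (x : K) : ‖W x‖ = ‖x‖ := norm_le_one_of_un F.W_un1 x

theorem Ws_norm (x : K) : ‖star W x‖ = ‖x‖ :=
  norm_le_one_of_un (by rw [star_star]; exact F.W_un2) x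

theorem J_norm {r : ℝ} (hr : 0 < r) (v : H) : ‖J r v‖ = ‖v‖ := by
  have h1 : ⟪J r v, J r v⟫_ℂ = ⟪v, v⟫_ℂ := by
    rw [← ContinuousLinearMap.adjoint_inner_right (J r) v (J r v), F.J_iso r v hr]
  rw [inner_self_eq_norm_sq_to_K, inner_self_eq_norm_sq_to_K] at h1
  have h2 : ‖J r v‖ ^ 2 = ‖v‖ ^ 2 := by exact_mod_cast h1
  exact (sq_eq_sq₀ (norm_nonneg _) (norm_nonneg _)).1 h2

theorem J_inner {r : ℝ} (hr : 0 < r) (v w : H) : ⟪J r v, J r w⟫_ℂ = ⟪v, w⟫_ℂ := by
  rw [← ContinuousLinearMap.adjoint_inner_right (J r) v (J r w), F.J_iso r w hr]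

theorem Ja_norm {r : ℝ} (hr : 0 < r) (x : K) : ‖ContinuousLinearMap.adjoint (J r) x‖ ≤ ‖x‖ := by
  have h1 : ‖J r‖ ≤ 1 := ContinuousLinearMap.opNorm_le_bound _ zero_le_one fun v => by
    rw [J_norm F hr, one_mul]
  have h2 : ‖ContinuousLinearMap.adjoint (J r)‖ ≤ 1 := by
    rw [LinearIsometryEquiv.norm_map]
    exact h1
  calc ‖ContinuousLinearMap.adjoint (J r) x‖ ≤ ‖ContinuousLinearMap.adjoint (J r)‖ * ‖x‖ :=
        ContinuousLinearMap.le_opNorm _ _
    _ ≤ 1 * ‖x‖ := mul_le_mul_of_nonneg_right h2 (norm_nonneg _)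
    _ = ‖x‖ := one_mul _

/-- the phase `e^{2πitp}` -/
theorem S_e (t p : ℝ) : S p * e t = Complex.exp (-(2 * Real.pi * I * t * p)) • (e t * S p) := by
  rw [F.e_S, smul_smul, ← Complex.exp_add, neg_add_cancel, Complex.exp_zero, one_smul]

theorem κ_adj {r : ℝ} (hr : 0 < r) (y : H →L[ℂ] H) (x : K) :
    ContinuousLinearMap.adjoint (J r) (κ y x) = y (ContinuousLinearMap.adjoint (J r) x) := by
  refine ext_inner_left ℂ fun v => ?_
  rw [ContinuousLinearMap.adjoint_inner_right]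
  have h1 : ⟪J r v, κ y x⟫_ℂ = ⟪κ (star y) (J r v), x⟫_ℂ := by
    rw [map_star, ContinuousLinearMap.star_eq_adjoint, ContinuousLinearMap.adjoint_inner_left]
  rw [h1, F.κ_J _ _ _ hr, ← ContinuousLinearMap.adjoint_inner_right,
    ContinuousLinearMap.star_eq_adjoint, ContinuousLinearMap.adjoint_inner_left]

theorem E_sa {r : ℝ} (hr : 0 < r) : star (E r 0) = E r 0 := by
  rw [F.E_star r 0 hr]; simp

theorem E_idem {r : ℝ} (hr : 0 < r) : E r 0 * E r 0 = E r 0 := by
  rw [← F.E_add r 0 0 hr, add_zero]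

theorem bx_zero (r : ℝ) : bx S E 0 r = E r 0 := by
  unfold bx
  rw [neg_zero, F.S_zero, one_mul, mul_one]

theorem bx_sa {r : ℝ} (hr : 0 < r) (p : ℝ) : star (bx S E p r) = bx S E p r := by
  unfold bx
  rw [star_mul, star_mul, F.S_star, F.S_star, E_sa F hr, neg_neg, mul_assoc]

theorem bx_idem {r : ℝ} (hr : 0 < r) (p : ℝ) : bx S E p r * bx S E p r = bx S E p r := by
  unfold bx
  have h1 : S p * E r 0 * S (-p) * (S p * E r 0 * S (-p)) =
      S p * (E r 0 * (S (-p) * S p) * E r 0) * S (-p) := by simp only [mul_assoc]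
  rw [h1, S_neg_mul F, mul_one, E_idem F hr]

theorem S_bx (s p r : ℝ) : S s * bx S E p r * S (-s) = bx S E (s + p) r := by
  unfold bx
  rw [F.S_add, neg_add_rev, F.S_add]
  simp only [mul_assoc]

theorem e_E {r : ℝ} (hr : 0 < r) (t : ℝ) (z : ℂ) : e t * E r z = E r z * e t := by
  refine F.E_comm (e t) (fun s => ?_) r z hr
  rw [← F.e_add, ← F.e_add, add_comm]

theorem bx_J {r : ℝ} (hr : 0 < r) (p : ℝ) (v : H) : bx S E p r (S p (J r v)) = S p (J r v) := by
  unfold bx
  have h1 := ap (S_neg_mul F p) (J r v)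
  have h2 : S (-p) (S p (J r v)) = J r v := h1
  show S p (E r 0 (S (-p) (S p (J r v)))) = _
  rw [h2, F.E_J r v hr]

theorem κ_bx {r : ℝ} (hr : 0 < r) (y : H →L[ℂ] H) (p : ℝ) : κ y * bx S E p r = bx S E p r * κ y := by
  unfold bx
  rw [← mul_assoc, ← mul_assoc, F.κ_S, mul_assoc (S p) (κ y), F.κ_E _ _ _ hr, ← mul_assoc,
    mul_assoc _ (κ y), F.κ_S, ← mul_assoc]

/-- `V_t = e_t κ(U_t)` -/
theorem V_W (hU : U 0 = 1 ∧ ∀ s t : ℝ, U (s + t) = U s * U t) (t : ℝ) :
    (e t * κ (U t)) * W = W * e t := by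
  have h1 : e t * W = W * (κ (U (-t)) * e t) := by
    rw [← F.e_W, ← mul_assoc, ← mul_assoc, F.W_un2, one_mul]
  have h2 : κ (U t) * κ (U (-t)) = 1 := by
    rw [← map_mul, ← hU.2, add_neg_cancel, hU.1, map_one]
  rw [← F.κ_e, mul_assoc, h1, ← mul_assoc, ← F.W_U, mul_assoc, ← mul_assoc (κ (U t)), h2, one_mul]

end fr

section core

variable (D : CoreD M N ξ U κ e S W J E A)
include D

theorem mem_of_comm {T : K →L[ℂ] K} (h : ∀ R : K →L[ℂ] K, (∀ Z : K →L[ℂ] K, Z ∈ A → R * Z = Z * R) →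
    R * T = T * R) : T ∈ A := by
  rw [← VonNeumannAlgebra.commutant_commutant A, VonNeumannAlgebra.mem_commutant_iff]
  intro R hR
  exact h R fun Z hZ => ((VonNeumannAlgebra.mem_commutant_iff.1 hR) Z hZ).symm

theorem E_mem {r : ℝ} (hr : 0 < r) (z : ℂ) : E r z ∈ A :=
  mem_of_comm D fun R hR => D.fr.E_comm R (fun t => hR _ (D.gen_e t)) r z hr

theorem S_comm_W (p : ℝ) (y : H →L[ℂ] H) :
    S p * (W * κ y * star W) = (W * κ y * star W) * S p := by
  have F := D.fr
  have h1 : S p * star W = star W * S p := by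
    have h2 := congrArg star (F.W_S (-p))
    rw [star_mul, star_mul, F.S_star, neg_neg] at h2
    exact h2
  calc S p * (W * κ y * star W) = (S p * W) * κ y * star W := by simp only [mul_assoc]
    _ = W * (S p * κ y) * star W := by rw [← F.W_S]; simp only [mul_assoc]
    _ = W * κ y * (S p * star W) := by rw [← F.κ_S]; simp only [mul_assoc]
    _ = _ := by rw [h1]; simp only [mul_assoc]

theorem S_mem (p : ℝ) {Z : K →L[ℂ] K} (hZ : Z ∈ A) : S p * Z * S (-p) ∈ A := by
  have F := D.fr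
  refine mem_of_comm D fun R hR => ?_
  have h1 : (S (-p) * R * S p) * Z = Z * (S (-p) * R * S p) := by
    refine D.gen_min Z hZ _ (fun y hy => ?_) fun t => ?_
    · calc (S (-p) * R * S p) * (W * κ y * star W)
          = S (-p) * (R * (W * κ y * star W)) * S p := by
            rw [mul_assoc, S_comm_W D]; simp only [mul_assoc]
        _ = (S (-p) * (W * κ y * star W)) * R * S p := by
            rw [hR _ (D.gen_W y hy)]; simp only [mul_assoc]
        _ = _ := by rw [S_comm_W D]; simp only [mul_assoc]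
    · have h2 : S p * e t = Complex.exp (-(2 * Real.pi * I * t * p)) • (e t * S p) := S_e F t p
      have h3 : S (-p) * e t = Complex.exp (-(2 * Real.pi * I * t * ((-p : ℝ) : ℂ))) • (e t * S (-p)) :=
        S_e F t (-p)
      calc (S (-p) * R * S p) * e t = S (-p) * R * (S p * e t) := by simp only [mul_assoc]
        _ = Complex.exp (-(2 * Real.pi * I * t * p)) • (S (-p) * (R * e t) * S p) := by
            rw [h2, mul_smul_comm]; simp only [mul_assoc]
        _ = Complex.exp (-(2 * Real.pi * I * t * p)) • ((S (-p) * e t) * R * S p) := by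
            rw [hR _ (D.gen_e t)]; simp only [mul_assoc]
        _ = e t * (S (-p) * R * S p) := by
            rw [h3, smul_mul_assoc, smul_mul_assoc, smul_smul, ← Complex.exp_add]
            have h4 : -(2 * (Real.pi : ℂ) * I * t * p) + -(2 * Real.pi * I * t * ((-p : ℝ) : ℂ)) = 0 := by
              push_cast; ring
            rw [h4, Complex.exp_zero, one_smul]
            simp only [mul_assoc]
  have h5 := congrArg (fun T => S p * T * S (-p)) h1
  have h6 : S p * ((S (-p) * R * S p) * Z) * S (-p) = (S p * S (-p)) * R * (S p * Z * S (-p)) := by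
    simp only [mul_assoc]
  have h7 : S p * (Z * (S (-p) * R * S p)) * S (-p) = (S p * Z * S (-p)) * R * (S p * S (-p)) := by
    simp only [mul_assoc]
  simp only [h6, h7, S_mul_neg F, one_mul, mul_one] at h5
  exact h5

theorem bx_mem {r : ℝ} (hr : 0 < r) (p : ℝ) : bx S E p r ∈ A := S_mem D p (E_mem D hr 0)

/-- the core commutes with `V_t` -/
theorem V_comm {Z : K →L[ℂ] K} (hZ : Z ∈ A) (t : ℝ) : (e t * κ (U t)) * Z = Z * (e t * κ (U t)) := by
  have F := D.fr
  have hU : U 0 = 1 ∧ ∀ s t : ℝ, U (s + t) = U s * U t := ⟨D.std.modular.zero, D.std.modular.add⟩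
  refine D.gen_min Z hZ _ (fun y hy => ?_) fun s => ?_
  · have h1 : (e t * κ (U t)) * W = W * e t := V_W F hU t
    have h2 : star W * (e t * κ (U t)) = e t * star W := by
      have h3 := V_W F hU t
      calc star W * (e t * κ (U t)) = star W * (e t * κ (U t)) * (W * star W) := by
            rw [F.W_un2, mul_one]
        _ = star W * ((e t * κ (U t)) * W) * star W := by simp only [mul_assoc]
        _ = (star W * W) * e t * star W := by rw [h3]; simp only [mul_assoc]
        _ = _ := by rw [F.W_un1, one_mul]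
    calc (e t * κ (U t)) * (W * κ y * star W) = ((e t * κ (U t)) * W) * κ y * star W := by
          simp only [mul_assoc]
      _ = W * (e t * κ y) * star W := by rw [h1]; simp only [mul_assoc]
      _ = W * κ y * (e t * star W) := by rw [← F.κ_e]; simp only [mul_assoc]
      _ = _ := by rw [← h2]; simp only [mul_assoc]
  · calc (e t * κ (U t)) * e s = e t * (κ (U t) * e s) := mul_assoc _ _ _
      _ = (e t * e s) * κ (U t) := by rw [F.κ_e, mul_assoc]
      _ = (e s * e t) * κ (U t) := by rw [← F.e_add, ← F.e_add, add_comm]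
      _ = _ := mul_assoc _ _ _

/-- the core commutes with `κ(N')` -/
theorem κ_comm {Z : K →L[ℂ] K} (hZ : Z ∈ A) {y' : H →L[ℂ] H} (hy' : y' ∈ N.commutant) :
    κ y' * Z = Z * κ y' := by
  have F := D.fr
  refine D.gen_min Z hZ _ (fun y hy => ?_) fun s => F.κ_e y' s
  refine (F.W_comm y y' fun t => ?_).symm
  have h1 : U (-t) * y * U t ∈ N := by
    have h2 := D.std.inv (-t) y hy
    unfold sgm at h2
    rw [D.std.modular.star_eq, neg_neg] at h2
    exact h2
  exact (VonNeumannAlgebra.mem_commutant_iff.1 hy') _ h1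

theorem aff {Z : K →L[ℂ] K} (hZ : Z ∈ A) : Aff N κ (fun t => e t * κ (U t)) Z :=
  ⟨fun t => (V_comm D hZ t).symm, fun _ hy => (κ_comm D hZ hy).symm⟩

omit D in
theorem RR_mul {X Y : K →L[ℂ] K} (hX : X ∈ RR M κ A) (hY : Y ∈ RR M κ A) : X * Y ∈ RR M κ A := by
  refine ⟨fun y hy => ?_, fun Z hZ => ?_⟩
  · rw [mul_assoc, hY.1 y hy, ← mul_assoc, hX.1 y hy, mul_assoc]
  · rw [mul_assoc, hY.2 Z hZ, ← mul_assoc, hX.2 Z hZ, mul_assoc]

omit D in
theorem RR_add {X Y : K →L[ℂ] K} (hX : X ∈ RR M κ A) (hY : Y ∈ RR M κ A) : X + Y ∈ RR M κ A := by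
  refine ⟨fun y hy => ?_, fun Z hZ => ?_⟩
  · rw [add_mul, mul_add, hX.1 y hy, hY.1 y hy]
  · rw [add_mul, mul_add, hX.2 Z hZ, hY.2 Z hZ]

omit D in
theorem RR_smul {X : K →L[ℂ] K} (c : ℂ) (hX : X ∈ RR M κ A) : c • X ∈ RR M κ A := by
  refine ⟨fun y hy => ?_, fun Z hZ => ?_⟩
  · rw [smul_mul_assoc, mul_smul_comm, hX.1 y hy]
  · rw [smul_mul_assoc, mul_smul_comm, hX.2 Z hZ]

omit D in
theorem RR_one : (1 : K →L[ℂ] K) ∈ RR M κ A :=
  ⟨fun y _ => by rw [one_mul, mul_one], fun Z _ => by rw [one_mul, mul_one]⟩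

omit D in
theorem RR_sub {X Y : K →L[ℂ] K} (hX : X ∈ RR M κ A) (hY : Y ∈ RR M κ A) : X - Y ∈ RR M κ A := by
  refine ⟨fun y hy => ?_, fun Z hZ => ?_⟩
  · rw [sub_mul, mul_sub, hX.1 y hy, hY.1 y hy]
  · rw [sub_mul, mul_sub, hX.2 Z hZ, hY.2 Z hZ]

omit D in
theorem RR_star {X : K →L[ℂ] K} (hX : X ∈ RR M κ A) : star X ∈ RR M κ A := by
  refine ⟨fun y hy => ?_, fun Z hZ => ?_⟩
  · have h1 := congrArg star (hX.1 (star y) (star_mem hy))
    rw [star_mul, star_mul, map_star, star_star] at h1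
    exact h1.symm
  · have h1 := congrArg star (hX.2 (star Z) (star_mem hZ))
    rw [star_mul, star_mul, star_star] at h1
    exact h1.symm

/-- the dual flow -/
theorem RR_S (p : ℝ) {X : K →L[ℂ] K} (hX : X ∈ RR M κ A) : S p * X * S (-p) ∈ RR M κ A := by
  have F := D.fr
  refine ⟨fun y hy => ?_, fun Z hZ => ?_⟩
  · calc S p * X * S (-p) * κ y = S p * (X * κ y) * S (-p) := by
          rw [mul_assoc, ← F.κ_S]; simp only [mul_assoc]
      _ = (S p * κ y) * X * S (-p) := by rw [hX.1 y hy]; simp only [mul_assoc]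
      _ = κ y * (S p * X * S (-p)) := by rw [← F.κ_S]; simp only [mul_assoc]
  · have h1 : S (-p) * Z * S p ∈ A := by
      have h2 := S_mem D (-p) hZ
      rwa [neg_neg] at h2
    have h3 := hX.2 _ h1
    calc S p * X * S (-p) * Z = S p * X * S (-p) * Z * (S p * S (-p)) := by
          rw [S_mul_neg F, mul_one]
      _ = S p * (X * (S (-p) * Z * S p)) * S (-p) := by simp only [mul_assoc]
      _ = (S p * S (-p)) * Z * (S p * X * S (-p)) := by rw [h3]; simp only [mul_assoc]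
      _ = _ := by rw [S_mul_neg F, one_mul]

/-- the modular flow -/
theorem RR_V (t : ℝ) {X : K →L[ℂ] K} (hX : X ∈ RR M κ A) :
    (e t * κ (U t)) * X * (e (-t) * κ (U (-t))) ∈ RR M κ A := by
  have F := D.fr
  have hm := D.std.modular
  have hU : ∀ s : ℝ, U s * U (-s) = 1 := fun s => by rw [← hm.add, add_neg_cancel, hm.zero]
  have hVV : ∀ s : ℝ, (e s * κ (U s)) * (e (-s) * κ (U (-s))) = 1 := by
    intro s
    calc (e s * κ (U s)) * (e (-s) * κ (U (-s))) = e s * (κ (U s) * e (-s)) * κ (U (-s)) := by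
          simp only [mul_assoc]
      _ = (e s * e (-s)) * (κ (U s) * κ (U (-s))) := by rw [F.κ_e]; simp only [mul_assoc]
      _ = 1 := by rw [e_mul_neg F, ← map_mul, hU, map_one, one_mul]
  refine ⟨fun y hy => ?_, fun Z hZ => ?_⟩
  · -- `U_{-t} y U_t ∈ M'`
    have h1 : U (-t) * y * U t ∈ M.commutant := by
      rw [VonNeumannAlgebra.mem_commutant_iff]
      intro b hb
      have h2 : U t * b * U (-t) ∈ M := by
        have h3 := hm.mem t b hb
        unfold sgm at h3
        rwa [hm.star_eq] at h3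
      have h4 := (VonNeumannAlgebra.mem_commutant_iff.1 hy) _ h2
      have hU' : U (-t) * U t = 1 := by have := hU (-t); rwa [neg_neg] at this
      calc b * (U (-t) * y * U t) = (U (-t) * U t) * b * (U (-t) * y * U t) := by
            rw [hU', one_mul]
        _ = U (-t) * ((U t * b * U (-t)) * y) * U t := by simp only [mul_assoc]
        _ = U (-t) * y * U t * b * (U (-t) * U t) := by rw [h4]; simp only [mul_assoc]
        _ = _ := by rw [hU', mul_one]
    have h5 : κ (U (-t)) * κ y = κ (U (-t) * y * U t) * κ (U (-t)) := by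
      rw [← map_mul, ← map_mul]
      congr 1
      rw [mul_assoc, hU, mul_one]
    have h6 : κ (U t) * κ (U (-t) * y * U t) = κ y * κ (U t) := by
      rw [← map_mul, ← map_mul]
      congr 1
      rw [← mul_assoc, ← mul_assoc, hU, one_mul]
    calc (e t * κ (U t)) * X * (e (-t) * κ (U (-t))) * κ y
        = (e t * κ (U t)) * X * (e (-t) * (κ (U (-t)) * κ y)) := by simp only [mul_assoc]
      _ = (e t * κ (U t)) * X * ((e (-t) * κ (U (-t) * y * U t)) * κ (U (-t))) := by
          rw [h5]; simp only [mul_assoc]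
      _ = (e t * κ (U t)) * (X * κ (U (-t) * y * U t)) * (e (-t) * κ (U (-t))) := by
          rw [← F.κ_e (U (-t) * y * U t) (-t)]; simp only [mul_assoc]
      _ = e t * (κ (U t) * κ (U (-t) * y * U t)) * X * (e (-t) * κ (U (-t))) := by
          rw [hX.1 _ h1]; simp only [mul_assoc]
      _ = κ y * ((e t * κ (U t)) * X * (e (-t) * κ (U (-t)))) := by
          rw [h6, ← mul_assoc (e t), ← F.κ_e]; simp only [mul_assoc]
  · have h1 := V_comm D hZ t
    have h2 : (e (-t) * κ (U (-t))) * Z = Z * (e (-t) * κ (U (-t))) := V_comm D hZ (-t)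
    calc (e t * κ (U t)) * X * (e (-t) * κ (U (-t))) * Z
        = (e t * κ (U t)) * X * ((e (-t) * κ (U (-t))) * Z) := by simp only [mul_assoc]
      _ = (e t * κ (U t)) * (X * Z) * (e (-t) * κ (U (-t))) := by rw [h2]; simp only [mul_assoc]
      _ = ((e t * κ (U t)) * Z) * X * (e (-t) * κ (U (-t))) := by
          rw [hX.2 Z hZ]; simp only [mul_assoc]
      _ = _ := by rw [h1]; simp only [mul_assoc]

end core

end

end Pool.Agent.H75.BC.FB
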