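import Pool.Agent.H75.BC.Stmts2

/-!
Relative bicentralizer flow versus relative flow of weights (MP_357da3_an): more statements of sub-tasks.
-/

set_option autoImplicit false

open MeasureTheory Filter Topology Complex
open scoped InnerProductSpace ENNReal

namespace Pool.Agent.H75.BC

open Pool.Agent.W662.CB

noncomputable section

/-- K1: Bures inequality for a unital *-algebra of operators. If `|⟪η, x η⟫ - ⟪ξ, x ξ⟫| ≤ ε ‖x‖` on `M` then `η ≈ t ξ`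
with a contraction `t` that commutes with `M`. -/
def S_Bur' : Prop := ∀ (H : Type) [NormedAddCommGroup H] [InnerProductSpace ℂ H] [CompleteSpace H]
  (M : StarSubalgebra ℂ (H →L[ℂ] H)) (ξ η : H) (ε : ℝ), ‖ξ‖ = 1 → 0 ≤ ε →
  (∀ x : H →L[ℂ] H, x ∈ M → ‖⟪η, x η⟫_ℂ - ⟪ξ, x ξ⟫_ℂ‖ ≤ ε * ‖x‖) →
  ∃ t : H →L[ℂ] H, (∀ x : H →L[ℂ] H, x ∈ M → t * x = x * t) ∧ ‖t‖ ≤ 1 ∧ ‖η - t ξ‖ ^ 2 ≤ ε

/-- K2: the abstract asymptotic centraliser lemma for unitaries. -/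
def S_Un' : Prop := ∀ (H : Type) [NormedAddCommGroup H] [InnerProductSpace ℂ H] [CompleteSpace H]
  (M : StarSubalgebra ℂ (H →L[ℂ] H)) (ξ : H) (J : H → H), ‖ξ‖ = 1 →
  (∀ x y : H, J (x + y) = J x + J y) → (∀ (c : ℂ) (x : H), J (c • x) = (starRingEnd ℂ c) • J x) →
  (∀ x : H, J (J x) = x) → (∀ x y : H, ⟪J x, J y⟫_ℂ = ⟪y, x⟫_ℂ) → J ξ = ξ →
  (∀ (a b : H →L[ℂ] H) (x : H), a ∈ M → b ∈ M → J (a (J (b x))) = b (J (a (J x)))) →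
  (∀ a : H →L[ℂ] H, a ∈ M → 0 ≤ (⟪a ξ, J (star a ξ)⟫_ℂ).re) →
  (∀ (v : H) (δ : ℝ), 0 < δ → ∃ b : H →L[ℂ] H, b ∈ M ∧ ‖b ξ + J (star b ξ) - v‖ ≤ δ) →
  ∀ (u : H →L[ℂ] H) (ε : ℝ), u ∈ M → star u * u = 1 → u * star u = 1 → 0 ≤ ε →
  (∀ x : H →L[ℂ] H, x ∈ M → ‖vst ξ (x * u) - vst ξ (u * x)‖ ≤ ε * ‖x‖) →
  ‖u ξ - J (star u ξ)‖ ^ 4 ≤ 10 ^ 4 * ε

/-- approximants of `X ∈ RR` on the window `[-1, 0]` -/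
structure Appr {H K : Type} [NormedAddCommGroup H] [InnerProductSpace ℂ H] [CompleteSpace H]
    [NormedAddCommGroup K] [InnerProductSpace ℂ K] [CompleteSpace K]
    (M N : VonNeumannAlgebra H) (ξ : H)
    (κ : (H →L[ℂ] H) →⋆ₐ[ℂ] (K →L[ℂ] K)) (e S : ℝ → K →L[ℂ] K)
    (W : K →L[ℂ] K) (J : ℝ → H →L[ℂ] K) (E : ℝ → ℂ → K →L[ℂ] K)
    (x : H →L[ℂ] H) (Xn : ℕ → K →L[ℂ] K) : Prop where
  norm : ∀ n : ℕ, ‖Xn n‖ ≤ ‖x‖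
  win : ∀ n : ℕ, bx S E (-1) 1 * Xn n * bx S E (-1) 1 = Xn n
  com : ∀ (n : ℕ) (y : H →L[ℂ] H), y ∈ M.commutant → Xn n * κ y = κ y * Xn n
  com_e : ∀ (n : ℕ) (t : ℝ), Xn n * e t = e t * Xn n
  lim : ∀ y : H →L[ℂ] H, y ∈ N → ∀ v : K, Tendsto (fun n => ⟪bx S E (-1) 1 v,
    ((W * κ y * star W) * Xn n - Xn n * (W * κ y * star W))
      (S (-1) (E 1 (-(I / 2)) (J 1 ξ)))⟫_ℂ) atTop (𝓝 0)
  val : ∀ ε : ℝ, 0 < ε → ∃ C : ℝ, 0 ≤ C ∧ ∀ k : ℕ, ∀ᶠ n in atTop,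
    ‖Xn n (S (-((1 / 2 : ℝ) ^ k)) (J ((1 / 2 : ℝ) ^ k) ξ)) -
      S (-((1 / 2 : ℝ) ^ k)) (J ((1 / 2 : ℝ) ^ k) (x ξ))‖ ≤ C * (1 / 2 : ℝ) ^ k + ε

/-- X1: the approximants exist. -/
def S_X1 : Prop := ∀ (H K : Type) [NormedAddCommGroup H] [InnerProductSpace ℂ H] [CompleteSpace H]
  [NormedAddCommGroup K] [InnerProductSpace ℂ K] [CompleteSpace K]
  (M N : VonNeumannAlgebra H) (ξ : H) (U : ℝ → H →L[ℂ] H) (J0 : H → H)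
  (ρ : (H →L[ℂ] H) → (H →L[ℂ] H)) (κ : (H →L[ℂ] H) →⋆ₐ[ℂ] (K →L[ℂ] K)) (e S : ℝ → K →L[ℂ] K)
  (W : K →L[ℂ] K) (J : ℝ → H →L[ℂ] K) (E : ℝ → ℂ → K →L[ℂ] K) (A : VonNeumannAlgebra K),
  CoreD M N ξ U κ e S W J E A → RAct M ξ U J0 ρ → ∀ x : H →L[ℂ] H, x ∈ M →
  (∀ ε : ℝ, 0 < ε → ∃ (C : ℝ) (ζ : H), 0 ≤ C ∧ ‖ζ - x ξ‖ ≤ ε ∧ Lip N ξ ρ C ζ) →
  ∃ Xn : ℕ → K →L[ℂ] K, Appr M N ξ κ e S W J E x Xn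

/-- X3: the limit of the approximants. -/
def S_X3 : Prop := ∀ (H K : Type) [NormedAddCommGroup H] [InnerProductSpace ℂ H] [CompleteSpace H]
  [NormedAddCommGroup K] [InnerProductSpace ℂ K] [CompleteSpace K]
  (M N : VonNeumannAlgebra H) (ξ : H) (U : ℝ → H →L[ℂ] H)
  (κ : (H →L[ℂ] H) →⋆ₐ[ℂ] (K →L[ℂ] K)) (e S : ℝ → K →L[ℂ] K)
  (W : K →L[ℂ] K) (J : ℝ → H →L[ℂ] K) (E : ℝ → ℂ → K →L[ℂ] K) (A : VonNeumannAlgebra K),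
  CoreD M N ξ U κ e S W J E A → ∀ (x : H →L[ℂ] H) (Xn : ℕ → K →L[ℂ] K), x ∈ M →
  Appr M N ξ κ e S W J E x Xn →
  ∃ X : K →L[ℂ] K, X ∈ RR M κ A ∧ ‖X‖ ≤ ‖x‖ ∧ ∀ ε : ℝ, 0 < ε → ∃ C : ℝ, 0 ≤ C ∧ ∀ k : ℕ,
    ‖X (S (-((1 / 2 : ℝ) ^ k)) (J ((1 / 2 : ℝ) ^ k) ξ)) -
      S (-((1 / 2 : ℝ) ^ k)) (J ((1 / 2 : ℝ) ^ k) (x ξ))‖ ≤ C * (1 / 2 : ℝ) ^ k + ε

/-- O1: the finite family `C_{mk} = J* e_{-m/r} Y e_{k/r} J` attached to a contraction `Y` of the box `[0, r]` which is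
isometric on the box. Averaged columns: for every `ε` there is a finite family of elements of `N` with the row bound, the
column bound, small deficiency at `ξ` and small total near-eigen error. -/
def S_Col0 : Prop := ∀ (H K : Type) [NormedAddCommGroup H] [InnerProductSpace ℂ H] [CompleteSpace H]
  [NormedAddCommGroup K] [InnerProductSpace ℂ K] [CompleteSpace K]
  (M N : VonNeumannAlgebra H) (ξ : H) (U : ℝ → H →L[ℂ] H) (J0 : H → H)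
  (ρ : (H →L[ℂ] H) → (H →L[ℂ] H)) (κ : (H →L[ℂ] H) →⋆ₐ[ℂ] (K →L[ℂ] K)) (e S : ℝ → K →L[ℂ] K)
  (W : K →L[ℂ] K) (J : ℝ → H →L[ℂ] K) (E : ℝ → ℂ → K →L[ℂ] K) (A : VonNeumannAlgebra K),
  CoreD M N ξ U κ e S W J E A → RAct M ξ U J0 ρ → ∀ s ε : ℝ, s ≤ 0 → 0 < ε →
  ∃ (n : ℕ) (C : Fin n → H →L[ℂ] H), (∀ i, C i ∈ N) ∧
    (∀ v : H, ∑ i, ‖C i v‖ ^ 2 ≤ ‖v‖ ^ 2) ∧ (∀ v : H, ∑ i, ‖star (C i) v‖ ^ 2 ≤ ‖v‖ ^ 2) ∧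
    1 - ε ≤ ∑ i, ‖C i ξ‖ ^ 2 ∧
    ∑ i, ‖ρ (C i) ξ - ((Real.exp (Real.pi * s) : ℝ) : ℂ) • C i ξ‖ ^ 2 ≤ ε ^ 2

end

end Pool.Agent.H75.BC
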