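import Pool.Agent.H75.BC.Stmts3

/-!
Relative bicentralizer flow versus relative flow of weights (MP_357da3_an): the concrete frame, Fourier part.
-/

set_option autoImplicit false

open MeasureTheory Filter Topology Complex
open scoped InnerProductSpace ENNReal

namespace Pool.Agent.H75.BC

open Pool.Agent.W662.CB

noncomputable section

/-- `∫_0^r e^{2πiws} dw` -/
def ir (r s : ℝ) : ℂ := ∫ w in Set.Icc (0 : ℝ) r, Complex.exp (2 * Real.pi * I * w * s)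

/-- `h_r(s) = r^{-1/2} ∫_0^r e^{2πiws} dw`, the time picture of `r^{-1/2} 1_{[0,r]}` -/
def hr (r s : ℝ) : ℂ := (((Real.sqrt r)⁻¹ : ℝ) : ℂ) * ir r s

/-- `G_n(t)`, the Fourier transform of `1_{[p,p+r]} * (n+1) 1_{[0,1/(n+1)]}` -/
def Gn (p r : ℝ) (n : ℕ) (t : ℝ) : ℂ :=
  Complex.exp (2 * Real.pi * I * p * (-t : ℝ)) * ir r (-t) * ((n + 1 : ℕ) * ir (1 / (n + 1 : ℕ)) (-t))

/-- `bx p r = lim_n ∫ G_n(t) e_t dt` weakly -/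
def BoxInt {K : Type} [NormedAddCommGroup K] [InnerProductSpace ℂ K] [CompleteSpace K]
    (e S : ℝ → K →L[ℂ] K) (E : ℝ → ℂ → K →L[ℂ] K) : Prop :=
  ∀ (f g : K) (p r : ℝ), 0 < r →
    Tendsto (fun n : ℕ => ∫ t : ℝ, Gn p r n t * ⟪f, e t g⟫_ℂ) atTop (𝓝 ⟪f, bx S E p r g⟫_ℂ)

/-- FR4a: `BoxInt` in the frequency picture. (`e t` = multiplication by `e^{2πitw}`.) -/
def S_BoxInt : Prop := ∀ (H : Type) [NormedAddCommGroup H] [InnerProductSpace ℂ H] [CompleteSpace H]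
  (e S : ℝ → LR H →L[ℂ] LR H) (E : ℝ → ℂ → LR H →L[ℂ] LR H),
  (∀ t : ℝ, IsMulOp (fun w : ℝ => Complex.exp (2 * Real.pi * I * t * w)) (e t)) →
  (∀ p : ℝ, IsShift p (S p)) →
  (∀ (r : ℝ) (z : ℂ), 0 < r → IsMulOp (fun w : ℝ => Set.indicator (Set.Icc 0 r)
      (fun w : ℝ => Complex.exp (2 * Real.pi * I * z * w)) w) (E r z)) → BoxInt e S E

/-- FR4b: the Fourier transform (of the library) maps `h_r ⊗ v` to `r^{-1/2} 1_{[0,r]} ⊗ v`; stated with the relations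
of `S_Q6`. -/
def S_FourJ : Prop := ∀ (H : Type) [NormedAddCommGroup H] [InnerProductSpace ℂ H] [CompleteSpace H],
  ∃ Φ : LR H ≃ₗᵢ[ℂ] LR H,
  (∀ (y : H →L[ℂ] H) (S : LR H →L[ℂ] LR H), IsConst y S → ∀ f : LR H, Φ (S f) = S (Φ f)) ∧
  (∀ (t : ℝ) (S S' : LR H →L[ℂ] LR H), IsShift t S →
    IsMulOp (fun w : ℝ => Complex.exp (2 * Real.pi * I * (-t : ℝ) * w)) S' →
    ∀ f : LR H, Φ (S f) = S' (Φ f)) ∧
  (∀ (t : ℝ) (S S' : LR H →L[ℂ] LR H), IsShift t S →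
    IsMulOp (fun w : ℝ => Complex.exp (2 * Real.pi * I * t * w)) S' →
    ∀ f : LR H, Φ (S' f) = S (Φ f)) ∧
  ∀ (r : ℝ) (v : H) (f g : LR H), 0 < r →
    (g : ℝ → H) =ᵐ[volume] (fun w => Set.indicator (Set.Icc 0 r)
      (fun _ => (((Real.sqrt r)⁻¹ : ℝ) : ℂ) • v) w) → Φ f = g →
    (f : ℝ → H) =ᵐ[volume] fun s => hr r s • v

/-- FR4c: the relations between `W` and the boxes. -/
def S_FrX' : Prop := ∀ (H : Type) [NormedAddCommGroup H] [InnerProductSpace ℂ H] [CompleteSpace H]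
  (U : ℝ → H →L[ℂ] H), U 0 = 1 → (∀ s t : ℝ, U (s + t) = U s * U t) →
  (∀ t : ℝ, star (U t) = U (-t)) → (∀ v : H, Continuous fun t : ℝ => U t v) →
  ∀ (κ : (H →L[ℂ] H) →⋆ₐ[ℂ] (LR H →L[ℂ] LR H)) (e S : ℝ → LR H →L[ℂ] LR H)
    (J : ℝ → H →L[ℂ] LR H) (E : ℝ → ℂ → LR H →L[ℂ] LR H) (W : LR H →L[ℂ] LR H),
  Frame0 κ e S J E → (∀ y, IsConst y (κ y)) → (∀ t, IsShift t (e (-t))) →
  (∀ p : ℝ, IsMulOp (fun s : ℝ => Complex.exp (2 * Real.pi * I * p * s)) (S p)) →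
  (∀ (r : ℝ) (v : H), 0 < r → (J r v : ℝ → H) =ᵐ[volume] fun s => hr r s • v) →
  BoxInt e S E →
  (∀ f : LR H, W f =ᵐ[volume] fun s => U (-s) (f s)) →
  (∀ f : LR H, star W f =ᵐ[volume] fun s => U s (f s)) →
  (∀ (r : ℝ) (v : H), 0 < r → (∀ t : ℝ, U t v = v) → W (J r v) = J r v) ∧
  (∀ (p r : ℝ) (v w : H), 0 < r →
    ⟪W (J r v), bx S E p r (W (J r w))⟫_ℂ = ⟪W (J r v), S p (J r w)⟫_ℂ) ∧
  (∀ (p r : ℝ) (v w : H), 0 < r →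
    ⟪star W (J r v), bx S E p r (star W (J r w))⟫_ℂ = ⟪star W (J r v), S p (J r w)⟫_ℂ) ∧
  (∀ (p r : ℝ) (v w : H), 0 < r → (∀ t : ℝ, ⟪v, U t v⟫_ℂ = ⟪w, U t w⟫_ℂ) →
    ⟪W (J r v), S p (J r v)⟫_ℂ = ⟪W (J r w), S p (J r w)⟫_ℂ)

end

end Pool.Agent.H75.BC
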