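import Pool.Agent.H75.BC.Stmts4

/-!
Uniqueness of the relative bicentralizer flow: statements.
-/

set_option autoImplicit false

open MeasureTheory Filter Topology Complex
open scoped InnerProductSpace ENNReal

namespace Pool.Agent.H75.BC

open Pool.Agent.W662.CB

noncomputable section

/-- U1: truncation of near-eigen elements. -/
def S_Tr : Prop := ∀ (H : Type) [NormedAddCommGroup H] [InnerProductSpace ℂ H] [CompleteSpace H]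
  (N : VonNeumannAlgebra H) (ξ : H), ‖ξ‖ = 1 → ∀ l : ℝ, 0 < l → ∃ C : ℝ, 0 ≤ C ∧
  ∀ (a : H →L[ℂ] H) (L : ℝ), a ∈ N → 0 < L → ∃ a' : H →L[ℂ] H, a' ∈ N ∧ ‖a'‖ ≤ L ∧
    fnorm N ξ l a' ≤ C * fnorm N ξ l a ∧ ∀ v : H, ‖(a - a') v‖ ≤ ‖(star a * a) v‖ / (2 * L)

/-- U2: near-eigen sequences separate points (`l ≥ 1`). -/
def S_Sep : Prop := ∀ (H K : Type) [NormedAddCommGroup H] [InnerProductSpace ℂ H] [CompleteSpace H]
  [NormedAddCommGroup K] [InnerProductSpace ℂ K] [CompleteSpace K]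
  (M N : VonNeumannAlgebra H) (ξ : H) (U : ℝ → H →L[ℂ] H) (J0 : H → H)
  (ρ : (H →L[ℂ] H) → (H →L[ℂ] H)) (κ : (H →L[ℂ] H) →⋆ₐ[ℂ] (K →L[ℂ] K)) (e S : ℝ → K →L[ℂ] K)
  (W : K →L[ℂ] K) (J : ℝ → H →L[ℂ] K) (E : ℝ → ℂ → K →L[ℂ] K) (A : VonNeumannAlgebra K),
  CoreD M N ξ U κ e S W J E A → RAct M ξ U J0 ρ → ∀ (l : ℝ) (y : H →L[ℂ] H), 1 ≤ l → y ∈ M →
  (∀ a : ℕ → H →L[ℂ] H, (∀ n, a n ∈ N) → (∃ C : ℝ, ∀ n, ‖a n‖ ≤ C) →
    Tendsto (fun n => fnorm N ξ l (a n)) atTop (𝓝 0) →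
    Tendsto (fun n => (a n * y) ξ) atTop (𝓝 0)) → y = 0

end

end Pool.Agent.H75.BC
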