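import Pool.Agent.H75.BC.Stmts

/-!
Basic consequences of `RAct` (helper75).
-/

set_option autoImplicit false

open MeasureTheory Filter Topology Complex
open scoped InnerProductSpace ENNReal

namespace Pool.Agent.H75.BC.RB

open Pool.Agent.W662.CB Pool.Agent.H75.BC

noncomputable section

variable {H : Type} [NormedAddCommGroup H] [InnerProductSpace ℂ H] [CompleteSpace H]
  {M : VonNeumannAlgebra H} {ξ : H} {U : ℝ → H →L[ℂ] H} {J : H → H}
  {ρ : (H →L[ℂ] H) → (H →L[ℂ] H)}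

theorem J_zero (h : RAct M ξ U J ρ) : J 0 = 0 := by
  have h1 := h.J_add 0 0
  rw [add_zero] at h1
  exact left_eq_add.1 h1

theorem J_neg (h : RAct M ξ U J ρ) (x : H) : J (-x) = -J x := by
  have h1 := h.J_add x (-x)
  rw [add_neg_cancel, J_zero h] at h1
  exact (neg_eq_of_add_eq_zero_right h1.symm).symm

theorem J_sub (h : RAct M ξ U J ρ) (x y : H) : J (x - y) = J x - J y := by
  rw [sub_eq_add_neg, h.J_add, J_neg h, ← sub_eq_add_neg]

theorem J_norm (h : RAct M ξ U J ρ) (x : H) : ‖J x‖ = ‖x‖ := by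
  have h1 := h.J_inner x x
  rw [inner_self_eq_norm_sq_to_K, inner_self_eq_norm_sq_to_K] at h1
  have h2 : ‖J x‖ ^ 2 = ‖x‖ ^ 2 := by exact_mod_cast h1
  exact (sq_eq_sq₀ (norm_nonneg _) (norm_nonneg _)).1 h2

/-- `⟪J x, y⟫ = ⟪J y, x⟫` -/
theorem J_swap (h : RAct M ξ U J ρ) (x y : H) : ⟪J x, y⟫_ℂ = ⟪J y, x⟫_ℂ := by
  have h1 := h.J_inner x (J y)
  rwa [h.J_inv] at h1

theorem J_swap' (h : RAct M ξ U J ρ) (x y : H) : ⟪x, J y⟫_ℂ = ⟪y, J x⟫_ℂ := by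
  have h1 := h.J_inner (J x) y
  rwa [h.J_inv] at h1

theorem ρ_one (h : RAct M ξ U J ρ) : ρ 1 = 1 := by
  ext x
  rw [h.act, star_one]
  simp [h.J_inv]

theorem ρ_add (h : RAct M ξ U J ρ) (a b : H →L[ℂ] H) : ρ (a + b) = ρ a + ρ b := by
  ext x
  rw [h.act, star_add, ContinuousLinearMap.add_apply, h.J_add, ContinuousLinearMap.add_apply,
    h.act, h.act]

theorem ρ_zero (h : RAct M ξ U J ρ) : ρ 0 = 0 := by
  ext x
  rw [h.act, star_zero]
  simp [J_zero h]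

theorem ρ_neg (h : RAct M ξ U J ρ) (a : H →L[ℂ] H) : ρ (-a) = -ρ a := by
  ext x
  rw [h.act, star_neg, ContinuousLinearMap.neg_apply, J_neg h, ContinuousLinearMap.neg_apply, h.act]

theorem ρ_sub (h : RAct M ξ U J ρ) (a b : H →L[ℂ] H) : ρ (a - b) = ρ a - ρ b := by
  rw [sub_eq_add_neg, ρ_add h, ρ_neg h, ← sub_eq_add_neg]

theorem ρ_smul (h : RAct M ξ U J ρ) (c : ℂ) (a : H →L[ℂ] H) : ρ (c • a) = c • ρ a := by
  ext x
  rw [h.act, star_smul, ContinuousLinearMap.smul_apply, h.J_smul, ContinuousLinearMap.smul_apply,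
    h.act]
  simp

theorem ρ_mul (h : RAct M ξ U J ρ) (a b : H →L[ℂ] H) : ρ (a * b) = ρ b * ρ a := by
  ext x
  rw [h.act, star_mul]
  show J (star b (star a (J x))) = ρ b (ρ a x)
  rw [h.act b, h.act a, h.J_inv]

theorem ρ_star (h : RAct M ξ U J ρ) (a : H →L[ℂ] H) : ρ (star a) = star (ρ a) := by
  refine ContinuousLinearMap.ext fun x => ext_inner_left ℂ fun y => ?_
  rw [ContinuousLinearMap.star_eq_adjoint (ρ a), ContinuousLinearMap.adjoint_inner_right,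
    h.act, star_star, h.act, J_swap h]
  rw [ContinuousLinearMap.star_eq_adjoint, ContinuousLinearMap.adjoint_inner_right]
  exact J_swap' h _ _

theorem ρ_norm_le (h : RAct M ξ U J ρ) (a : H →L[ℂ] H) : ‖ρ a‖ ≤ ‖a‖ := by
  refine ContinuousLinearMap.opNorm_le_bound _ (norm_nonneg _) fun x => ?_
  rw [h.act, J_norm h]
  refine (ContinuousLinearMap.le_opNorm _ _).trans ?_
  rw [norm_star, J_norm h]

theorem ρ_ξ (h : RAct M ξ U J ρ) (a : H →L[ℂ] H) : ρ a ξ = J (star a ξ) := by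
  rw [h.act, h.J_fix]

/-- symmetry: `‖a* ξ - c ξ a*‖ = ‖ξ a - c a ξ‖` -/
theorem sym (h : RAct M ξ U J ρ) (a : H →L[ℂ] H) (c : ℝ) :
    ‖star a ξ - (c : ℂ) • ρ (star a) ξ‖ = ‖ρ a ξ - (c : ℂ) • a ξ‖ := by
  rw [← J_norm h (star a ξ - (c : ℂ) • ρ (star a) ξ), J_sub h, h.J_smul, ρ_ξ h a, ρ_ξ h (star a),
    star_star, h.J_inv, Complex.conj_ofReal]

theorem sym1 (h : RAct M ξ U J ρ) (a : H →L[ℂ] H) :
    ‖star a ξ - ρ (star a) ξ‖ = ‖a ξ - ρ a ξ‖ := by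
  have h1 := sym h a 1
  simp only [Complex.ofReal_one, one_smul] at h1
  rw [h1, norm_sub_rev]

theorem inner_ρ (h : RAct M ξ U J ρ) (a b : H →L[ℂ] H) :
    ⟪ρ a ξ, ρ b ξ⟫_ℂ = ⟪star b ξ, star a ξ⟫_ℂ := by
  rw [ρ_ξ h, ρ_ξ h, h.J_inner]

theorem comm_apply (h : RAct M ξ U J ρ) {a b : H →L[ℂ] H} (ha : a ∈ M) (hb : b ∈ M) (x : H) :
    ρ a (b x) = b (ρ a x) :=
  congrArg (fun Z : H →L[ℂ] H => Z x) (h.comm a b ha hb)

theorem ρ_mem (h : RAct M ξ U J ρ) {a : H →L[ℂ] H} (ha : a ∈ M) : ρ a ∈ M.commutant := by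
  rw [VonNeumannAlgebra.mem_commutant_iff]
  intro b hb
  exact (h.comm a b ha hb).symm

/-- `Δ^{1/2}` is symmetric -/
theorem Δ_sym (h : RAct M ξ U J ρ) {a b : H →L[ℂ] H} (ha : a ∈ M) (hb : b ∈ M) :
    ⟪a ξ, ρ b ξ⟫_ℂ = ⟪ρ a ξ, b ξ⟫_ℂ := by
  have hbs : star b ∈ M := star_mem hb
  rw [ρ_ξ h b, J_swap' h]
  have h1 : J (a ξ) = ρ (star a) ξ := by rw [ρ_ξ h, star_star]
  rw [h1, ρ_star h, ContinuousLinearMap.star_eq_adjoint (ρ a),
    ContinuousLinearMap.adjoint_inner_right, comm_apply h ha hbs,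
    ContinuousLinearMap.star_eq_adjoint b, ContinuousLinearMap.adjoint_inner_left]

theorem ρ_sgm (h : RAct M ξ U J ρ) (hU : IsModular M ξ U) (t : ℝ) (a : H →L[ℂ] H) :
    ρ (sgm U t a) = sgm U t (ρ a) := by
  ext x
  unfold sgm
  rw [h.act, star_mul, star_mul, star_star]
  simp only [ContinuousLinearMap.mul_apply]
  rw [h.J_U, hU.star_eq, ← h.J_U (-t) x, h.act]

/-- restriction to a subalgebra -/
theorem restrict {N : VonNeumannAlgebra H} (h : RAct M ξ U J ρ)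
    (hNM : ∀ x : H →L[ℂ] H, x ∈ N → x ∈ M) : RAct N ξ U J ρ :=
  { h with
    comm := fun a b ha hb => h.comm a b (hNM a ha) (hNM b hb)
    an := fun F hF => h.an F ⟨fun z => hNM _ (hF.mem z), hF.diff, hF.diff', hF.ext, hF.bdd⟩ }

end

end Pool.Agent.H75.BC.RB
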