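import Pool.Agent.H75.BC.Defs

/-!
Relative bicentralizer flow versus relative flow of weights (MP_357da3_an): exact statements of the tasks.
-/

set_option autoImplicit false

open MeasureTheory Filter Topology Complex
open scoped InnerProductSpace ENNReal

namespace Pool.Agent.H75.BC

open Pool.Agent.W662.CB

noncomputable section

/-! ### Modular theory -/

/-- T0a: *-strong approximation by analytic elements (Gaussian averages `∫ g_n(t) σ_t(a) dt`). -/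
def S_Apx : Prop := ∀ (H : Type) [NormedAddCommGroup H] [InnerProductSpace ℂ H] [CompleteSpace H]
  (M : VonNeumannAlgebra H) (ξ : H) (U : ℝ → H →L[ℂ] H), IsModular M ξ U →
  ∀ a : H →L[ℂ] H, a ∈ M → ∃ F : ℕ → ℂ → H →L[ℂ] H, (∀ n, IsAn M U (F n)) ∧ (∀ n, ‖F n 0‖ ≤ ‖a‖) ∧
    (∀ v : H, Tendsto (fun n => F n 0 v) atTop (𝓝 (a v))) ∧
    ∀ v : H, Tendsto (fun n => star (F n 0) v) atTop (𝓝 (star a v))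

/-- T0: the modular conjugation. `J (F 0 ξ) = (F (i/2))* ξ` for analytic `F`. -/
def S_J : Prop := ∀ (H : Type) [NormedAddCommGroup H] [InnerProductSpace ℂ H] [CompleteSpace H]
  (M : VonNeumannAlgebra H) (ξ : H) (U : ℝ → H →L[ℂ] H), ‖ξ‖ = 1 → IsCyclic M ξ → IsSeparating M ξ →
  IsModular M ξ U → ∃ (J : H → H) (ρ : (H →L[ℂ] H) → (H →L[ℂ] H)), RAct M ξ U J ρ

/-- T1: the Lipschitz lemma. -/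
def S_L : Prop := ∀ (H : Type) [NormedAddCommGroup H] [InnerProductSpace ℂ H] [CompleteSpace H]
  (M N : VonNeumannAlgebra H) (ξ : H) (U : ℝ → H →L[ℂ] H) (J : H → H)
  (ρ : (H →L[ℂ] H) → (H →L[ℂ] H)), Std M N ξ U → RAct M ξ U J ρ →
  ∀ x : H →L[ℂ] H, x ∈ Bic N M ξ → ∀ ε : ℝ, 0 < ε →
    ∃ (C : ℝ) (ζ : H), 0 ≤ C ∧ ‖ζ - x ξ‖ ≤ ε ∧ Lip N ξ ρ C ζ

/-- P1: Poisson formula in the middle of the strip (rectangle contours for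
`(F z - F (i/2)) / sinh (π (z - i/2))`). -/
def S_Poi : Prop := ∀ F : ℂ → ℂ, ContinuousOn F {z : ℂ | 0 ≤ z.im ∧ z.im ≤ 1} →
  DifferentiableOn ℂ F {z : ℂ | 0 < z.im ∧ z.im < 1} →
  (∃ C : ℝ, ∀ z : ℂ, 0 ≤ z.im → z.im ≤ 1 → ‖F z‖ ≤ C) →
  ∫ s : ℝ, (F s + F (s + I) - 2 * F (I / 2)) * ((Real.cosh (Real.pi * s))⁻¹ : ℝ) = 0

/-- P2: a bounded analytic function on the strip with equal boundary values is constant (on the boundary). -/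
def S_Per : Prop := ∀ F : ℂ → ℂ, ContinuousOn F {z : ℂ | 0 ≤ z.im ∧ z.im ≤ 1} →
  DifferentiableOn ℂ F {z : ℂ | 0 < z.im ∧ z.im < 1} →
  (∃ C : ℝ, ∀ z : ℂ, 0 ≤ z.im → z.im ≤ 1 → ‖F z‖ ≤ C) →
  (∀ t : ℝ, F t = F (t + I)) → ∀ t : ℝ, F t = F 0

/-- T8a: approximate eigenvectors of `Δ^{1/2}` are approximate eigenvectors of `U_t`
(`c = λ^{1/2}`, `U_t a ξ ≈ λ^{-it} a ξ`). -/
def S_An : Prop := ∀ (H : Type) [NormedAddCommGroup H] [InnerProductSpace ℂ H] [CompleteSpace H]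
  (M : VonNeumannAlgebra H) (ξ : H) (U : ℝ → H →L[ℂ] H) (J : H → H)
  (ρ : (H →L[ℂ] H) → (H →L[ℂ] H)), ‖ξ‖ = 1 → IsModular M ξ U → RAct M ξ U J ρ →
  ∀ (c t : ℝ), 0 < c → ∃ C : ℝ, ∀ a : H →L[ℂ] H, a ∈ M →
    ‖U t (a ξ) - Complex.exp (-2 * I * t * Real.log c) • a ξ‖ ≤ C * ‖a ξ - (c : ℂ) • ρ a ξ‖

/-- T9: for bounded sequences `‖a_n φ - λ φ a_n‖ → 0` implies `‖a_n ξ - λ^{1/2} ξ a_n‖ → 0`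
(functional norm over `M`). -/
def S_AC : Prop := ∀ (H : Type) [NormedAddCommGroup H] [InnerProductSpace ℂ H] [CompleteSpace H]
  (M : VonNeumannAlgebra H) (ξ : H) (U : ℝ → H →L[ℂ] H) (J : H → H)
  (ρ : (H →L[ℂ] H) → (H →L[ℂ] H)), ‖ξ‖ = 1 → IsCyclic M ξ → IsSeparating M ξ → IsModular M ξ U →
  RAct M ξ U J ρ →
  ∀ (c L ε : ℝ), 0 < c → 0 < ε → ∃ δ : ℝ, 0 < δ ∧ ∀ a : H →L[ℂ] H, a ∈ M → ‖a‖ ≤ L →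
    (∀ x : H →L[ℂ] H, x ∈ M → ‖x‖ ≤ 1 →
      ‖vst ξ (x * a) - ((c ^ 2 : ℝ) : ℂ) * vst ξ (a * x)‖ ≤ δ) →
    ‖a ξ - (c : ℂ) • ρ a ξ‖ ≤ ε

/-! ### The core -/

/-- T2: analytic slices. -/
def S_Sl : Prop := ∀ (H K : Type) [NormedAddCommGroup H] [InnerProductSpace ℂ H] [CompleteSpace H]
  [NormedAddCommGroup K] [InnerProductSpace ℂ K] [CompleteSpace K]
  (M : VonNeumannAlgebra H) (ξ : H) (U : ℝ → H →L[ℂ] H) (J0 : H → H)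
  (ρ : (H →L[ℂ] H) → (H →L[ℂ] H)) (κ : (H →L[ℂ] H) →⋆ₐ[ℂ] (K →L[ℂ] K)) (e S : ℝ → K →L[ℂ] K)
  (W : K →L[ℂ] K) (J : ℝ → H →L[ℂ] K) (E : ℝ → ℂ → K →L[ℂ] K),
  IsModular M ξ U → RAct M ξ U J0 ρ → Frame U κ e S W J E →
  ∀ (Z : K →L[ℂ] K) (q r : ℝ), 0 < r →
  (∀ y : H →L[ℂ] H, y ∈ M.commutant → Z * κ y = κ y * Z) →
  (∀ t : ℝ, (e t * κ (U t)) * Z = Complex.exp (2 * Real.pi * I * q * t) • (Z * (e t * κ (U t)))) →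
  sl (J r) Z ∈ M ∧ ρ (sl (J r) Z) ξ = ((Real.exp (Real.pi * q) : ℝ) : ℂ) •
    ContinuousLinearMap.adjoint (J r) (E r (I / 2) (Z (E r (-(I / 2)) (J r ξ))))

/-- T3a: comparison of boxes; `V*V = ` box at `s ≤ 0`, `V V* ≤` box at `0`. -/
def S_V : Prop := ∀ (H K : Type) [NormedAddCommGroup H] [InnerProductSpace ℂ H] [CompleteSpace H]
  [NormedAddCommGroup K] [InnerProductSpace ℂ K] [CompleteSpace K]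
  (M N : VonNeumannAlgebra H) (ξ : H) (U : ℝ → H →L[ℂ] H)
  (κ : (H →L[ℂ] H) →⋆ₐ[ℂ] (K →L[ℂ] K)) (e S : ℝ → K →L[ℂ] K)
  (W : K →L[ℂ] K) (J : ℝ → H →L[ℂ] K) (E : ℝ → ℂ → K →L[ℂ] K) (A : VonNeumannAlgebra K),
  CoreD M N ξ U κ e S W J E A → ∃ r0 : ℝ, 0 < r0 ∧ ∀ r s : ℝ, 0 < r → r ≤ r0 → s ≤ 0 →
  ∃ V : K →L[ℂ] K, V ∈ A ∧ star V * V = bx S E s r ∧ E r 0 * V = V

/-- T3: columns. -/
def S_Col : Prop := ∀ (H K : Type) [NormedAddCommGroup H] [InnerProductSpace ℂ H] [CompleteSpace H]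
  [NormedAddCommGroup K] [InnerProductSpace ℂ K] [CompleteSpace K]
  (M N : VonNeumannAlgebra H) (ξ : H) (U : ℝ → H →L[ℂ] H) (J0 : H → H)
  (ρ : (H →L[ℂ] H) → (H →L[ℂ] H)) (κ : (H →L[ℂ] H) →⋆ₐ[ℂ] (K →L[ℂ] K)) (e S : ℝ → K →L[ℂ] K)
  (W : K →L[ℂ] K) (J : ℝ → H →L[ℂ] K) (E : ℝ → ℂ → K →L[ℂ] K) (A : VonNeumannAlgebra K),
  CoreD M N ξ U κ e S W J E A → RAct M ξ U J0 ρ → ∀ s ε : ℝ, s ≤ 0 → 0 < ε →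
  ∃ (n : ℕ) (C : Fin n → H →L[ℂ] H), (∀ i, C i ∈ N) ∧ ∑ i, star (C i) * C i = 1 ∧
    (∀ v : H, ∑ i, ‖star (C i) v‖ ^ 2 ≤ 2 * ‖v‖ ^ 2) ∧
    ∑ i, ‖ρ (C i) ξ - ((Real.exp (Real.pi * s) : ℝ) : ℂ) • C i ξ‖ ^ 2 ≤ ε ^ 2

/-- T4: the finite estimate. Here `x p = ∑ C* x C`, `lam p = λ_p^{1/2}`. -/
def S_Fin : Prop := ∀ (H : Type) [NormedAddCommGroup H] [InnerProductSpace ℂ H] [CompleteSpace H]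
  (M N : VonNeumannAlgebra H) (ξ : H) (U : ℝ → H →L[ℂ] H) (J0 : H → H)
  (ρ : (H →L[ℂ] H) → (H →L[ℂ] H)), Std M N ξ U → RAct M ξ U J0 ρ →
  ∀ (x : H →L[ℂ] H), x ∈ M → ∀ (ζ : H) (ε C : ℝ), 0 ≤ C → ‖ζ - x ξ‖ ≤ ε → Lip N ξ ρ C ζ →
  ∀ (n : ℕ) (k : Fin n → ℕ) (c : (p : Fin n) → Fin (k p) → H →L[ℂ] H) (lam : Fin n → ℝ) (η : ℝ),
  0 ≤ η → (∀ p, 0 < lam p ∧ lam p ≤ 1) → (∀ p i, c p i ∈ N) → (∀ p, ∑ i, star (c p i) * c p i = 1) →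
  (∀ p (v : H), ∑ i, ‖star (c p i) v‖ ^ 2 ≤ 2 * ‖v‖ ^ 2) →
  (∀ p, ∑ i, ‖ρ (c p i) ξ - ((lam p : ℝ) : ℂ) • c p i ξ‖ ^ 2 ≤ η ^ 2) →
  ∀ (Y : Fin n → Fin n → H →L[ℂ] H), (∀ p j, Y p j ∈ N) →
  (∀ w : Fin n → H, ∑ p, ‖∑ j, Y p j (w j)‖ ^ 2 ≤ ∑ j, ‖w j‖ ^ 2) →
  ∀ τ β : ℝ, 0 ≤ τ → 0 ≤ β →
  (∀ j, ∑ p, ‖((lam j : ℝ) : ℂ) • Y p j ξ - ((lam p : ℝ) : ℂ) • ρ (Y p j) ξ‖ ^ 2 ≤ τ ^ 2) →
  ∀ g : Fin n → ℝ, ∑ p, ‖∑ j, ((g j : ℝ) : ℂ) • Y p j‖ ^ 2 ≤ β ^ 2 →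
  Real.sqrt (∑ p, ‖∑ j, ((lam j * g j : ℝ) : ℂ) • (Y p j ((∑ i, star (c j i) * x * c j i) ξ) -
      (∑ i, star (c p i) * x * c p i) (Y p j ξ))‖ ^ 2) ≤
    (∑ j, |g j|) * C * Real.sqrt (3 * ((n + 1) * η ^ 2 + τ ^ 2)) +
    (2 * ε + ‖x‖ * η) * Real.sqrt (∑ j, g j ^ 2) + ‖x‖ * (∑ j, |g j|) * τ + β * (2 * ε + ‖x‖ * η)

/-- T4b: the value at the reference box. -/
def S_Fin2 : Prop := ∀ (H : Type) [NormedAddCommGroup H] [InnerProductSpace ℂ H] [CompleteSpace H]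
  (M N : VonNeumannAlgebra H) (ξ : H) (U : ℝ → H →L[ℂ] H) (J0 : H → H)
  (ρ : (H →L[ℂ] H) → (H →L[ℂ] H)), Std M N ξ U → RAct M ξ U J0 ρ →
  ∀ (x : H →L[ℂ] H), x ∈ M → ∀ (ζ : H) (ε C : ℝ), 0 ≤ C → ‖ζ - x ξ‖ ≤ ε → Lip N ξ ρ C ζ →
  ∀ (k : ℕ) (c : Fin k → H →L[ℂ] H) (lam η : ℝ), 0 ≤ η → 0 < lam → lam ≤ 1 →
  (∀ i, c i ∈ N) → ∑ i, star (c i) * c i = 1 →
  (∀ (v : H), ∑ i, ‖star (c i) v‖ ^ 2 ≤ 2 * ‖v‖ ^ 2) →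
  ∑ i, ‖ρ (c i) ξ - ((lam : ℝ) : ℂ) • c i ξ‖ ^ 2 ≤ η ^ 2 →
  ‖(∑ i, star (c i) * x * c i) ξ - x ξ‖ ≤
    C * (η + (1 - lam)) + 3 * ε + ‖x‖ * η + (1 - lam) * ‖x‖

/-- T5: existence of `X ∈ A' ∩ (M ⊗ B(L²))` with value `x` at `0` (from the left). -/
def S_Ex : Prop := ∀ (H K : Type) [NormedAddCommGroup H] [InnerProductSpace ℂ H] [CompleteSpace H]
  [NormedAddCommGroup K] [InnerProductSpace ℂ K] [CompleteSpace K]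
  (M N : VonNeumannAlgebra H) (ξ : H) (U : ℝ → H →L[ℂ] H) (J0 : H → H)
  (ρ : (H →L[ℂ] H) → (H →L[ℂ] H)) (κ : (H →L[ℂ] H) →⋆ₐ[ℂ] (K →L[ℂ] K)) (e S : ℝ → K →L[ℂ] K)
  (W : K →L[ℂ] K) (J : ℝ → H →L[ℂ] K) (E : ℝ → ℂ → K →L[ℂ] K) (A : VonNeumannAlgebra K),
  CoreD M N ξ U κ e S W J E A → RAct M ξ U J0 ρ → ∀ x : H →L[ℂ] H, x ∈ M →
  (∀ ε : ℝ, 0 < ε → ∃ (C : ℝ) (ζ : H), 0 ≤ C ∧ ‖ζ - x ξ‖ ≤ ε ∧ Lip N ξ ρ C ζ) →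
  ∃ X : K →L[ℂ] K, X ∈ RR M κ A ∧ ‖X‖ ≤ ‖x‖ ∧ ∀ ε : ℝ, 0 < ε → ∃ C : ℝ, 0 ≤ C ∧ ∀ k : ℕ,
    ‖X (S (-((1 / 2 : ℝ) ^ k)) (J ((1 / 2 : ℝ) ^ k) ξ)) -
      S (-((1 / 2 : ℝ) ^ k)) (J ((1 / 2 : ℝ) ^ k) (x ξ))‖ ≤ C * (1 / 2 : ℝ) ^ k + ε

/-- T6: diagonal values of elements of the relative commutant are constant. -/
def S_F1c : Prop := ∀ (H K : Type) [NormedAddCommGroup H] [InnerProductSpace ℂ H] [CompleteSpace H]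
  [NormedAddCommGroup K] [InnerProductSpace ℂ K] [CompleteSpace K]
  (M N : VonNeumannAlgebra H) (ξ : H) (U : ℝ → H →L[ℂ] H)
  (κ : (H →L[ℂ] H) →⋆ₐ[ℂ] (K →L[ℂ] K)) (e S : ℝ → K →L[ℂ] K)
  (W : K →L[ℂ] K) (J : ℝ → H →L[ℂ] K) (E : ℝ → ℂ → K →L[ℂ] K) (A : VonNeumannAlgebra K),
  CoreD M N ξ U κ e S W J E A → ∀ D : K →L[ℂ] K, D ∈ RR M κ A → ∀ p r : ℝ, 0 < r →
  ⟪S p (J r ξ), D (S p (J r ξ))⟫_ℂ = ⟪J 1 ξ, D (J 1 ξ)⟫_ℂ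

/-- T7: evaluation at points. -/
def S_Ev : Prop := ∀ (H K : Type) [NormedAddCommGroup H] [InnerProductSpace ℂ H] [CompleteSpace H]
  [NormedAddCommGroup K] [InnerProductSpace ℂ K] [CompleteSpace K]
  (M N : VonNeumannAlgebra H) (ξ : H) (U : ℝ → H →L[ℂ] H)
  (κ : (H →L[ℂ] H) →⋆ₐ[ℂ] (K →L[ℂ] K)) (e S : ℝ → K →L[ℂ] K)
  (W : K →L[ℂ] K) (J : ℝ → H →L[ℂ] K) (E : ℝ → ℂ → K →L[ℂ] K) (A : VonNeumannAlgebra K),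
  CoreD M N ξ U κ e S W J E A → ∀ X : K →L[ℂ] K, X ∈ RR M κ A →
  ∃ x : ℝ → H →L[ℂ] H, (∀ p, Ev M J (S (-p) * X * S p) (x p)) ∧
    (∀ p, ‖x p ξ‖ = ‖X (J 1 ξ)‖) ∧
    (∀ ε : ℝ, 0 < ε → ∃ r0 : ℝ, 0 < r0 ∧ ∀ p r : ℝ, 0 < r → r ≤ r0 →
      ‖X (S p (J r ξ)) - S p (J r (x p ξ))‖ ≤ ε ∧
      ‖X (S (p - r) (J r ξ)) - S (p - r) (J r (x p ξ))‖ ≤ ε) ∧
    ∀ L : ℝ, (∀ s : ℝ, ‖S s * X * S (-s) - X‖ ≤ L * |s|) → ∀ p r : ℝ, 0 < r →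
      ‖X (S p (J r ξ)) - S p (J r (x p ξ))‖ ≤ L * r

/-- T7b: the evaluation is injective. -/
def S_Inj : Prop := ∀ (H K : Type) [NormedAddCommGroup H] [InnerProductSpace ℂ H] [CompleteSpace H]
  [NormedAddCommGroup K] [InnerProductSpace ℂ K] [CompleteSpace K]
  (M N : VonNeumannAlgebra H) (ξ : H) (U : ℝ → H →L[ℂ] H)
  (κ : (H →L[ℂ] H) →⋆ₐ[ℂ] (K →L[ℂ] K)) (e S : ℝ → K →L[ℂ] K)
  (W : K →L[ℂ] K) (J : ℝ → H →L[ℂ] K) (E : ℝ → ℂ → K →L[ℂ] K) (A : VonNeumannAlgebra K),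
  CoreD M N ξ U κ e S W J E A → ∀ X : K →L[ℂ] K, X ∈ RR M κ A → X (J 1 ξ) = 0 → X = 0

/-- T8: the defining property of the flow, for approximate eigenvectors; `p = log c / π`. -/
def S_Flow : Prop := ∀ (H K : Type) [NormedAddCommGroup H] [InnerProductSpace ℂ H] [CompleteSpace H]
  [NormedAddCommGroup K] [InnerProductSpace ℂ K] [CompleteSpace K]
  (M N : VonNeumannAlgebra H) (ξ : H) (U : ℝ → H →L[ℂ] H) (J0 : H → H)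
  (ρ : (H →L[ℂ] H) → (H →L[ℂ] H)) (κ : (H →L[ℂ] H) →⋆ₐ[ℂ] (K →L[ℂ] K)) (e S : ℝ → K →L[ℂ] K)
  (W : K →L[ℂ] K) (J : ℝ → H →L[ℂ] K) (E : ℝ → ℂ → K →L[ℂ] K) (A : VonNeumannAlgebra K),
  CoreD M N ξ U κ e S W J E A → RAct M ξ U J0 ρ →
  ∀ X : K →L[ℂ] K, X ∈ RR M κ A → ∀ (x y : H →L[ℂ] H) (c p : ℝ), 0 < c → Real.pi * p = Real.log c →
  Ev M J X x → Ev M J (S p * X * S (-p)) y →
  ∀ a : ℕ → H →L[ℂ] H, (∀ n, a n ∈ N) → (∃ L : ℝ, ∀ n, ‖a n‖ ≤ L) →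
  Tendsto (fun n => ‖a n ξ - (c : ℂ) • ρ (a n) ξ‖) atTop (𝓝 0) →
  ∀ v : H, Tendsto (fun n => (x * a n - a n * y) v) atTop (𝓝 0)

/-- T10: the relative commutant of the core of `N` in `N ⊗ B(L²)` is trivial
(apply `CoreD` with `M = N`). -/
def S_CT : Prop := ∀ (H K : Type) [NormedAddCommGroup H] [InnerProductSpace ℂ H] [CompleteSpace H]
  [NormedAddCommGroup K] [InnerProductSpace ℂ K] [CompleteSpace K]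
  (N : VonNeumannAlgebra H) (ξ : H) (U : ℝ → H →L[ℂ] H) (J0 : H → H)
  (ρ : (H →L[ℂ] H) → (H →L[ℂ] H)) (κ : (H →L[ℂ] H) →⋆ₐ[ℂ] (K →L[ℂ] K)) (e S : ℝ → K →L[ℂ] K)
  (W : K →L[ℂ] K) (J : ℝ → H →L[ℂ] K) (E : ℝ → ℂ → K →L[ℂ] K) (A : VonNeumannAlgebra K),
  CoreD N N ξ U κ e S W J E A → RAct N ξ U J0 ρ →
  ∀ X : K →L[ℂ] K, X ∈ RR N κ A → ∃ c : ℂ, X = c • (1 : K →L[ℂ] K)

/-- T11: the frame exists on `L²(ℝ; H)`. -/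
def S_Fr : Prop := ∀ (H : Type) [NormedAddCommGroup H] [InnerProductSpace ℂ H] [CompleteSpace H]
  (M : VonNeumannAlgebra H) (ξ : H) (U : ℝ → H →L[ℂ] H), IsModular M ξ U →
  ∃ (κ : (H →L[ℂ] H) →⋆ₐ[ℂ] (LR H →L[ℂ] LR H)) (e S : ℝ → LR H →L[ℂ] LR H)
    (W : LR H →L[ℂ] LR H) (J : ℝ → H →L[ℂ] LR H) (E : ℝ → ℂ → LR H →L[ℂ] LR H),
    Frame U κ e S W J E ∧ (∀ y, IsConst y (κ y)) ∧ (∀ t, IsShift t (e (-t))) ∧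
    (∀ p : ℝ, IsMulOp (fun s : ℝ => Complex.exp (2 * Real.pi * I * p * s)) (S p)) ∧
    ∀ (y : H →L[ℂ] H) (f : LR H), (W * κ y * star W) f =ᵐ[volume] fun s => sgm U (-s) y (f s)

end

end Pool.Agent.H75.BC
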