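import Pool.Agent.H75.BC.FB

/-!
Relative bicentralizer flow versus relative flow of weights (MP_357da3_an): statements of sub-tasks.
-/

set_option autoImplicit false

open MeasureTheory Filter Topology Complex
open scoped InnerProductSpace ENNReal

namespace Pool.Agent.H75.BC

open Pool.Agent.W662.CB

noncomputable section

/-- L1: heat flow. The modulus of continuity implies the weighted Lipschitz estimate for finite families of unitaries,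
with a constant that does not depend on the family. -/
def S_Lw : Prop := ∀ (H : Type) [NormedAddCommGroup H] [InnerProductSpace ℂ H] [CompleteSpace H]
  (M N : VonNeumannAlgebra H) (ξ : H) (U : ℝ → H →L[ℂ] H) (J : H → H)
  (ρ : (H →L[ℂ] H) → (H →L[ℂ] H)), Std M N ξ U → RAct M ξ U J ρ →
  ∀ x : H →L[ℂ] H, x ∈ M →
  (∀ ε : ℝ, 0 < ε → ∃ A : ℝ, 0 ≤ A ∧ ∀ w : H →L[ℂ] H, w ∈ N → star w * w = 1 → w * star w = 1 →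
    ‖(x * w - w * x) ξ‖ ^ 2 ≤ ε + A * ‖w ξ - ρ w ξ‖ ^ 2) →
  ∀ ε : ℝ, 0 < ε → ∃ C : ℝ, 0 ≤ C ∧ ∀ (n : ℕ) (u : Fin n → H →L[ℂ] H) (μ : Fin n → ℝ),
    (∀ i, u i ∈ N ∧ star (u i) * u i = 1 ∧ u i * star (u i) = 1) → (∀ i, 0 ≤ μ i) → ∑ i, μ i = 1 →
    ∀ δ : ℝ, 0 < δ → ∃ ζ : H, ‖ζ - x ξ‖ ≤ ε ∧
      ∑ i, μ i * ‖u i ζ - ρ (u i) ζ‖ ^ 2 ≤ C * ∑ i, μ i * ‖u i ξ - ρ (u i) ξ‖ ^ 2 + δ

/-- L2: minimax, abstractly: convex functions `q i ζ = ‖T i ζ‖²`. If every convex combination can be made `≤ ∑ μ_i b_i + δ`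
on the ball, then one `ζ` of the ball satisfies all the inequalities. -/
def S_Mm : Prop := ∀ (H : Type) [NormedAddCommGroup H] [InnerProductSpace ℂ H] [CompleteSpace H]
  (ι : Type) (T : ι → H →L[ℂ] H) (b : ι → ℝ) (η : H) (ε : ℝ), 0 ≤ ε → (∀ i, 0 ≤ b i) →
  (∀ (n : ℕ) (i : Fin n → ι) (μ : Fin n → ℝ), (∀ k, 0 ≤ μ k) → ∑ k, μ k = 1 → ∀ δ : ℝ, 0 < δ →
    ∃ ζ : H, ‖ζ - η‖ ≤ ε ∧ ∑ k, μ k * ‖T (i k) ζ‖ ^ 2 ≤ ∑ k, μ k * b (i k) + δ) →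
  ∃ ζ : H, ‖ζ - η‖ ≤ ε ∧ ∀ i, ‖T i ζ‖ ^ 2 ≤ b i

/-- X2: from the corner to the whole algebra: an operator of the corner `P = 1_{[p,p+r]}` that commutes with `κ(M')`, the `e t`
and `P π_σ(y) P` extends to an element of `A' ∩ (M ⊗ B(L²))`. -/
def S_Cor : Prop := ∀ (H K : Type) [NormedAddCommGroup H] [InnerProductSpace ℂ H] [CompleteSpace H]
  [NormedAddCommGroup K] [InnerProductSpace ℂ K] [CompleteSpace K]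
  (M N : VonNeumannAlgebra H) (ξ : H) (U : ℝ → H →L[ℂ] H)
  (κ : (H →L[ℂ] H) →⋆ₐ[ℂ] (K →L[ℂ] K)) (e S : ℝ → K →L[ℂ] K)
  (W : K →L[ℂ] K) (J : ℝ → H →L[ℂ] K) (E : ℝ → ℂ → K →L[ℂ] K) (A : VonNeumannAlgebra K),
  CoreD M N ξ U κ e S W J E A → ∀ (p r : ℝ), 0 < r → ∀ X : K →L[ℂ] K,
  bx S E p r * X * bx S E p r = X →
  (∀ y : H →L[ℂ] H, y ∈ M.commutant → X * κ y = κ y * X) →
  (∀ t : ℝ, X * e t = e t * X) →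
  (∀ y : H →L[ℂ] H, y ∈ N → X * (bx S E p r * (W * κ y * star W) * bx S E p r) =
    (bx S E p r * (W * κ y * star W) * bx S E p r) * X) →
  ∃ X' : K →L[ℂ] K, X' ∈ RR M κ A ∧ X' * bx S E p r = X ∧ ‖X'‖ ≤ ‖X‖

/-- D1: averaging over the modular flow `Ad V_t` inside `RR`, diagonal values are kept. -/
def S_Avg : Prop := ∀ (H K : Type) [NormedAddCommGroup H] [InnerProductSpace ℂ H] [CompleteSpace H]
  [NormedAddCommGroup K] [InnerProductSpace ℂ K] [CompleteSpace K]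
  (M N : VonNeumannAlgebra H) (ξ : H) (U : ℝ → H →L[ℂ] H)
  (κ : (H →L[ℂ] H) →⋆ₐ[ℂ] (K →L[ℂ] K)) (e S : ℝ → K →L[ℂ] K)
  (W : K →L[ℂ] K) (J : ℝ → H →L[ℂ] K) (E : ℝ → ℂ → K →L[ℂ] K) (A : VonNeumannAlgebra K),
  CoreD M N ξ U κ e S W J E A → ∀ D : K →L[ℂ] K, D ∈ RR M κ A →
  ∃ D' : K →L[ℂ] K, D' ∈ RR M κ A ∧ (∀ t : ℝ, (e t * κ (U t)) * D' = D' * (e t * κ (U t))) ∧
    ∀ (p r : ℝ), 0 < r → ⟪S p (J r ξ), D' (S p (J r ξ))⟫_ℂ = ⟪S p (J r ξ), D (S p (J r ξ))⟫_ℂ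

/-- D2: the same statement as T6 for `V`-invariant elements. -/
def S_F1v : Prop := ∀ (H K : Type) [NormedAddCommGroup H] [InnerProductSpace ℂ H] [CompleteSpace H]
  [NormedAddCommGroup K] [InnerProductSpace ℂ K] [CompleteSpace K]
  (M N : VonNeumannAlgebra H) (ξ : H) (U : ℝ → H →L[ℂ] H)
  (κ : (H →L[ℂ] H) →⋆ₐ[ℂ] (K →L[ℂ] K)) (e S : ℝ → K →L[ℂ] K)
  (W : K →L[ℂ] K) (J : ℝ → H →L[ℂ] K) (E : ℝ → ℂ → K →L[ℂ] K) (A : VonNeumannAlgebra K),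
  CoreD M N ξ U κ e S W J E A → ∀ D : K →L[ℂ] K, D ∈ RR M κ A →
  (∀ t : ℝ, (e t * κ (U t)) * D = D * (e t * κ (U t))) → ∀ p r : ℝ, 0 < r →
  ⟪S p (J r ξ), D (S p (J r ξ))⟫_ℂ = ⟪J 1 ξ, D (J 1 ξ)⟫_ℂ

/-- K1: Bures inequality. If `|⟪η, x η⟫ - ⟪ξ, x ξ⟫| ≤ ε ‖x‖` on `M` then `η ≈ t ξ` with a contraction `t ∈ M'`. -/
def S_Bur : Prop := ∀ (H : Type) [NormedAddCommGroup H] [InnerProductSpace ℂ H] [CompleteSpace H]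
  (M : VonNeumannAlgebra H) (ξ η : H) (ε : ℝ), ‖ξ‖ = 1 → 0 ≤ ε →
  (∀ x : H →L[ℂ] H, x ∈ M → ‖⟪η, x η⟫_ℂ - ⟪ξ, x ξ⟫_ℂ‖ ≤ ε * ‖x‖) →
  ∃ t : H →L[ℂ] H, t ∈ M.commutant ∧ ‖t‖ ≤ 1 ∧ ‖η - t ξ‖ ^ 2 ≤ ε

/-- K2: the abstract asymptotic centraliser lemma for unitaries. `Js` is a conjugation with `J a J` commuting with the algebra `M`. -/
def S_Un : Prop := ∀ (H : Type) [NormedAddCommGroup H] [InnerProductSpace ℂ H] [CompleteSpace H]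
  (M : VonNeumannAlgebra H) (ξ : H) (J : H → H), ‖ξ‖ = 1 →
  (∀ x y : H, J (x + y) = J x + J y) → (∀ (c : ℂ) (x : H), J (c • x) = (starRingEnd ℂ c) • J x) →
  (∀ x : H, J (J x) = x) → (∀ x y : H, ⟪J x, J y⟫_ℂ = ⟪y, x⟫_ℂ) → J ξ = ξ →
  (∀ (a b : H →L[ℂ] H) (x : H), a ∈ M → b ∈ M → J (a (J (b x))) = b (J (a (J x)))) →
  (∀ a : H →L[ℂ] H, a ∈ M → 0 ≤ (⟪a ξ, J (star a ξ)⟫_ℂ).re) →
  (∀ (v : H) (δ : ℝ), 0 < δ → ∃ b : H →L[ℂ] H, b ∈ M ∧ ‖b ξ + J (star b ξ) - v‖ ≤ δ) →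
  ∀ (u : H →L[ℂ] H) (ε : ℝ), u ∈ M → star u * u = 1 → u * star u = 1 → 0 ≤ ε →
  (∀ x : H →L[ℂ] H, x ∈ M → ‖vst ξ (x * u) - vst ξ (u * x)‖ ≤ ε * ‖x‖) →
  ‖u ξ - J (star u ξ)‖ ^ 4 ≤ 10 ^ 4 * ε

/-- K3: density of the range of `1 + c Δ^{1/2}` and positivity of `Δ^{1/2}`. -/
def S_Dn : Prop := ∀ (H : Type) [NormedAddCommGroup H] [InnerProductSpace ℂ H] [CompleteSpace H]
  (M : VonNeumannAlgebra H) (ξ : H) (U : ℝ → H →L[ℂ] H) (J : H → H)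
  (ρ : (H →L[ℂ] H) → (H →L[ℂ] H)), ‖ξ‖ = 1 → IsCyclic M ξ → IsSeparating M ξ → IsModular M ξ U →
  RAct M ξ U J ρ → (∀ a : H →L[ℂ] H, a ∈ M → 0 ≤ (⟪a ξ, ρ a ξ⟫_ℂ).re) ∧
  ∀ (c : ℝ) (v : H) (δ : ℝ), 0 < c → 0 < δ →
    ∃ b : H →L[ℂ] H, b ∈ M ∧ ‖b ξ + (c : ℂ) • ρ b ξ - v‖ ≤ δ

/-- CT1: the trace inequality for Lipschitz elements. -/
def S_CTa : Prop := ∀ (H K : Type) [NormedAddCommGroup H] [InnerProductSpace ℂ H] [CompleteSpace H]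
  [NormedAddCommGroup K] [InnerProductSpace ℂ K] [CompleteSpace K]
  (N : VonNeumannAlgebra H) (ξ : H) (U : ℝ → H →L[ℂ] H) (J0 : H → H)
  (ρ : (H →L[ℂ] H) → (H →L[ℂ] H)) (κ : (H →L[ℂ] H) →⋆ₐ[ℂ] (K →L[ℂ] K)) (e S : ℝ → K →L[ℂ] K)
  (W : K →L[ℂ] K) (J : ℝ → H →L[ℂ] K) (E : ℝ → ℂ → K →L[ℂ] K) (A : VonNeumannAlgebra K),
  CoreD N N ξ U κ e S W J E A → RAct N ξ U J0 ρ →
  ∀ (X : K →L[ℂ] K) (x : H →L[ℂ] H) (L : ℝ), X ∈ RR N κ A → Ev N J X x →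
  (∀ s : ℝ, ‖S s * X * S (-s) - X‖ ≤ L * |s|) → ‖star x ξ‖ ≤ ‖x ξ‖

/-! ### The concrete frame -/

/-- The part of `Frame` without `U` and `W`. -/
structure Frame0 {H K : Type} [NormedAddCommGroup H] [InnerProductSpace ℂ H] [CompleteSpace H]
    [NormedAddCommGroup K] [InnerProductSpace ℂ K] [CompleteSpace K]
    (κ : (H →L[ℂ] H) →⋆ₐ[ℂ] (K →L[ℂ] K)) (e S : ℝ → K →L[ℂ] K)
    (J : ℝ → H →L[ℂ] K) (E : ℝ → ℂ → K →L[ℂ] K) : Prop where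
  e_zero : e 0 = 1
  e_add : ∀ s t : ℝ, e (s + t) = e s * e t
  e_star : ∀ t : ℝ, star (e t) = e (-t)
  e_cont : ∀ f : K, Continuous fun t : ℝ => e t f
  S_zero : S 0 = 1
  S_add : ∀ s t : ℝ, S (s + t) = S s * S t
  S_star : ∀ t : ℝ, star (S t) = S (-t)
  S_cont : ∀ f : K, Continuous fun t : ℝ => S t f
  e_S : ∀ t p : ℝ, e t * S p = Complex.exp (2 * Real.pi * I * t * p) • (S p * e t)
  κ_e : ∀ (y : H →L[ℂ] H) (t : ℝ), κ y * e t = e t * κ y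
  κ_S : ∀ (y : H →L[ℂ] H) (p : ℝ), κ y * S p = S p * κ y
  κ_E : ∀ (y : H →L[ℂ] H) (r : ℝ) (z : ℂ), 0 < r → κ y * E r z = E r z * κ y
  J_iso : ∀ (r : ℝ) (v : H), 0 < r → ContinuousLinearMap.adjoint (J r) (J r v) = v
  κ_J : ∀ (y : H →L[ℂ] H) (r : ℝ) (v : H), 0 < r → κ y (J r v) = J r (y v)
  E_add : ∀ (r : ℝ) (z w : ℂ), 0 < r → E r (z + w) = E r z * E r w
  E_star : ∀ (r : ℝ) (z : ℂ), 0 < r → star (E r z) = E r (-(starRingEnd ℂ z))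
  E_diff : ∀ r : ℝ, 0 < r → Differentiable ℂ (E r)
  E_norm : ∀ (r : ℝ) (z : ℂ), 0 < r → ‖E r z - E r 0‖ ≤ Real.exp (2 * Real.pi * ‖z‖ * r) - 1
  E_comm : ∀ T : K →L[ℂ] K, (∀ t : ℝ, T * e t = e t * T) → ∀ (r : ℝ) (z : ℂ), 0 < r →
    T * E r z = E r z * T
  e_J : ∀ (r t : ℝ) (v : H), 0 < r → e t (J r v) = E r t (J r v)
  E_J : ∀ (r : ℝ) (v : H), 0 < r → E r 0 (J r v) = J r v
  box_E : ∀ (p r r' : ℝ) (z : ℂ), 0 < r → 0 ≤ p → p + r ≤ r' →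
    bx S E p r * E r' z = Complex.exp (2 * Real.pi * I * z * p) • (S p * E r z * S (-p))
  box_J : ∀ (p r r' : ℝ) (v : H), 0 < r → 0 ≤ p → p + r ≤ r' →
    bx S E p r (J r' v) = ((Real.sqrt (r / r') : ℝ) : ℂ) • S p (J r v)
  box_orth : ∀ p q r r' : ℝ, 0 < r → 0 < r' → p + r ≤ q → bx S E p r * bx S E q r' = 0
  box_sum : ∀ (r : ℝ) (n : ℕ), 0 < r → 0 < n →
    E r 0 = ∑ k ∈ Finset.range n, bx S E (k * (r / n)) (r / n)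
  fourier : ∀ (r : ℝ), 0 < r → ∀ u : K, HasSum (fun m : ℤ => e ((m : ℝ) / r)
    (J r (ContinuousLinearMap.adjoint (J r) (e (-((m : ℝ) / r)) u)))) (E r 0 u)
  flat : ∀ (r : ℝ), 0 < r → ∀ u : K, Tendsto (fun n : ℕ => ∑ k ∈ Finset.range (n + 1),
    S (k * (r / (n + 1 : ℕ))) (J (r / (n + 1 : ℕ)) (ContinuousLinearMap.adjoint (J (r / (n + 1 : ℕ)))
      (S (-(k * (r / (n + 1 : ℕ)))) u)))) atTop (𝓝 (E r 0 u))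
  exhaust : ∀ u : K, Tendsto (fun R : ℝ => bx S E (-R) (2 * R) u) atTop (𝓝 u)
  tail : ∀ (u : K) (R δ : ℝ), 0 < R → (∀ t : ℝ, |t| ≤ 1 / R → ‖e t u - u‖ ≤ δ) →
    ‖u - bx S E (-R) (2 * R) u‖ ≤ 2 * δ

/-- FR1: the frequency picture, algebraic part and explicit formulas. -/
def S_FrA : Prop := ∀ (H : Type) [NormedAddCommGroup H] [InnerProductSpace ℂ H] [CompleteSpace H],
  ∃ (κ : (H →L[ℂ] H) →⋆ₐ[ℂ] (LR H →L[ℂ] LR H)) (e S : ℝ → LR H →L[ℂ] LR H)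
    (J : ℝ → H →L[ℂ] LR H) (E : ℝ → ℂ → LR H →L[ℂ] LR H),
    Frame0 κ e S J E ∧ (∀ y, IsConst y (κ y)) ∧
    (∀ t : ℝ, IsMulOp (fun w : ℝ => Complex.exp (2 * Real.pi * I * t * w)) (e t)) ∧
    (∀ p : ℝ, IsShift p (S p)) ∧
    (∀ (r : ℝ) (z : ℂ), 0 < r → IsMulOp (fun w : ℝ => Set.indicator (Set.Icc 0 r)
      (fun w : ℝ => Complex.exp (2 * Real.pi * I * z * w)) w) (E r z)) ∧
    ∀ (r : ℝ) (v : H), 0 < r → (J r v : ℝ → H) =ᵐ[volume] fun w => Set.indicator (Set.Icc 0 r)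
      (fun _ => (((Real.sqrt r)⁻¹ : ℝ) : ℂ) • v) w

/-- FR2: transport by a unitary. -/
def S_FrB : Prop := ∀ (H K L : Type) [NormedAddCommGroup H] [InnerProductSpace ℂ H] [CompleteSpace H]
  [NormedAddCommGroup K] [InnerProductSpace ℂ K] [CompleteSpace K]
  [NormedAddCommGroup L] [InnerProductSpace ℂ L] [CompleteSpace L]
  (κ : (H →L[ℂ] H) →⋆ₐ[ℂ] (K →L[ℂ] K)) (e S : ℝ → K →L[ℂ] K)
  (J : ℝ → H →L[ℂ] K) (E : ℝ → ℂ → K →L[ℂ] K), Frame0 κ e S J E →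
  ∀ (κ' : (H →L[ℂ] H) →⋆ₐ[ℂ] (L →L[ℂ] L)) (e' S' : ℝ → L →L[ℂ] L) (Φ : L ≃ₗᵢ[ℂ] K),
  (∀ (y : H →L[ℂ] H) (f : L), Φ (κ' y f) = κ y (Φ f)) →
  (∀ (t : ℝ) (f : L), Φ (e' t f) = e t (Φ f)) → (∀ (t : ℝ) (f : L), Φ (S' t f) = S t (Φ f)) →
  ∃ (J' : ℝ → H →L[ℂ] L) (E' : ℝ → ℂ → L →L[ℂ] L), Frame0 κ' e' S' J' E' ∧
    (∀ (r : ℝ) (v : H), Φ (J' r v) = J r v) ∧ ∀ (r : ℝ) (z : ℂ) (f : L), Φ (E' r z f) = E r z (Φ f)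

/-- FR3: the unitary `(W f)(s) = U(-s) f(s)` in the time picture, and its relations. -/
def S_FrW : Prop := ∀ (H : Type) [NormedAddCommGroup H] [InnerProductSpace ℂ H] [CompleteSpace H]
  (U : ℝ → H →L[ℂ] H), U 0 = 1 → (∀ s t : ℝ, U (s + t) = U s * U t) →
  (∀ t : ℝ, star (U t) = U (-t)) → (∀ v : H, Continuous fun t : ℝ => U t v) →
  ∀ (κ : (H →L[ℂ] H) →⋆ₐ[ℂ] (LR H →L[ℂ] LR H)) (e S : ℝ → LR H →L[ℂ] LR H),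
  (∀ y, IsConst y (κ y)) → (∀ t, IsShift t (e (-t))) →
  (∀ p : ℝ, IsMulOp (fun s : ℝ => Complex.exp (2 * Real.pi * I * p * s)) (S p)) →
  ∃ W : LR H →L[ℂ] LR H,
    (∀ f : LR H, W f =ᵐ[volume] fun s => U (-s) (f s)) ∧
    (∀ f : LR H, star W f =ᵐ[volume] fun s => U s (f s)) ∧
    star W * W = 1 ∧ W * star W = 1 ∧ (∀ p : ℝ, W * S p = S p * W) ∧
    (∀ t : ℝ, star W * e t * W = κ (U (-t)) * e t) ∧ (∀ t : ℝ, W * κ (U t) = κ (U t) * W) ∧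
    (∀ y y' : H →L[ℂ] H,
      (∀ t : ℝ, (U (-t) * y * U t) * y' = y' * (U (-t) * y * U t)) →
      (W * κ y * star W) * κ y' = κ y' * (W * κ y * star W)) ∧
    (∀ (a : ℕ → H →L[ℂ] H) (p C : ℝ), (∀ n, ‖a n‖ ≤ C) →
      (∀ (t : ℝ) (v : H), Tendsto (fun n => (U (-t) * a n * U t -
        Complex.exp (2 * Real.pi * I * p * t) • a n) v) atTop (𝓝 0)) →
      ∀ f : LR H, Tendsto (fun n => (W * κ (a n) * star W - κ (a n) * S p) f) atTop (𝓝 0)) ∧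
    ∀ (y : H →L[ℂ] H) (f : LR H), (W * κ y * star W) f =ᵐ[volume] fun s => U (-s) (y (U s (f s)))

/-- FR4: boxes and `W`. -/
def S_FrX : Prop := ∀ (H : Type) [NormedAddCommGroup H] [InnerProductSpace ℂ H] [CompleteSpace H]
  (U : ℝ → H →L[ℂ] H), U 0 = 1 → (∀ s t : ℝ, U (s + t) = U s * U t) →
  (∀ t : ℝ, star (U t) = U (-t)) → (∀ v : H, Continuous fun t : ℝ => U t v) →
  ∀ (κ : (H →L[ℂ] H) →⋆ₐ[ℂ] (LR H →L[ℂ] LR H)) (e S : ℝ → LR H →L[ℂ] LR H)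
    (J : ℝ → H →L[ℂ] LR H) (E : ℝ → ℂ → LR H →L[ℂ] LR H) (W : LR H →L[ℂ] LR H),
  Frame0 κ e S J E → (∀ y, IsConst y (κ y)) → (∀ t, IsShift t (e (-t))) →
  (∀ p : ℝ, IsMulOp (fun s : ℝ => Complex.exp (2 * Real.pi * I * p * s)) (S p)) →
  (∀ f : LR H, W f =ᵐ[volume] fun s => U (-s) (f s)) →
  (∀ f : LR H, star W f =ᵐ[volume] fun s => U s (f s)) →
  (∀ (r : ℝ) (v : H), 0 < r → (∀ t : ℝ, U t v = v) → W (J r v) = J r v) ∧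
  (∀ (p r : ℝ) (v w : H), 0 < r →
    ⟪W (J r v), bx S E p r (W (J r w))⟫_ℂ = ⟪W (J r v), S p (J r w)⟫_ℂ) ∧
  (∀ (p r : ℝ) (v w : H), 0 < r →
    ⟪star W (J r v), bx S E p r (star W (J r w))⟫_ℂ = ⟪star W (J r v), S p (J r w)⟫_ℂ) ∧
  (∀ (p r : ℝ) (v w : H), 0 < r → (∀ t : ℝ, ⟪v, U t v⟫_ℂ = ⟪w, U t w⟫_ℂ) →
    ⟪W (J r v), S p (J r v)⟫_ℂ = ⟪W (J r w), S p (J r w)⟫_ℂ)

end

end Pool.Agent.H75.BC
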